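import Pool.Agent.AutGeo.B.LineFTP

set_option autoImplicit false

namespace AutGeo

private lemma adjOut_small {e : ℤˣ} {r : ℤ × ℤ} (h1 : |sig e r| ≤ DD e) (h2 : |del e r| ≤ 1) :
    |r.1| ≤ 4 ∧ |r.2| ≤ 4 := by
  rcases Int.units_eq_one_or e with rfl | rfl
  · simp only [sig, del, DD, if_true] at h1 h2
    rw [abs_le] at h1 h2
    constructor <;> rw [abs_le] <;> constructor <;> omega
  · have : ¬ ((-1 : ℤˣ) = 1) := by decide
    simp only [sig, del, DD, this, if_false] at h1 h2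
    rw [abs_le] at h1 h2
    constructor <;> rw [abs_le] <;> constructor <;> omega

private lemma adjOut_rot_abs (a : ZMod 4) (v : ℤ × ℤ) (n : ℤ) (h1 : |v.1| ≤ n) (h2 : |v.2| ≤ n) :
    |(rot a v).1| ≤ n ∧ |(rot a v).2| ≤ n := by
  rcases zmod4_cases a with rfl | rfl | rfl | rfl <;>
    simp only [rot_zero, rot_one, rot_two, rot_three, abs_neg] <;> exact ⟨by assumption, by assumption⟩

private lemma adjOut_T (e : ℤˣ) : |(T e).1| ≤ 3 ∧ |(T e).2| ≤ 3 := by
  rcases Int.units_eq_one_or e with rfl | rfl <;> decide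

private lemma adjOut_near {e : ℤˣ} {k i : ℤ} {r y : ℤ × ℤ} {n2 : ℕ} (h1 : |sig e r| ≤ DD e)
    (h2 : |del e r| ≤ 1) (hy1 : |y.1| ≤ n2) (hy2 : |y.2| ≤ n2)
    (h : k • rayv e + r = y - i • T' e) : |i| ≤ n2 + 1 ∧ |k| ≤ 2 * n2 + 1 := by
  have hs := congrArg (sig e) h
  have hd := congrArg (del e) h
  rw [sig_add, sig_sub, sig_smul, sig_smul, sig_rayv, sig_T'] at hs
  rw [del_add, del_sub, del_smul, del_smul, del_rayv, del_T'] at hd
  rcases Int.units_eq_one_or e with rfl | rfl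
  · simp only [sig, del, DD, rayc, if_true] at h1 h2 hs hd
    rw [abs_le] at h1 h2 hy1 hy2
    push_cast at hd
    constructor <;> rw [abs_le] <;> constructor <;> omega
  · have : ¬ ((-1 : ℤˣ) = 1) := by decide
    simp only [sig, del, DD, rayc, this, if_false] at h1 h2 hs hd
    rw [abs_le] at h1 h2 hy1 hy2
    push_cast at hd
    constructor <;> rw [abs_le] <;> constructor <;> omega

/-- outward crossing: `g = h ⟨k•ray+r, a⟩`, `g' = g κ₁ t^s κ₂` and the crossing does not go back through the entry edge of the plane of `g`.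
`Red (h * of (⟨..⟩ * κ₁) * te s) s`, so by `red_unique`: `e' = s`, `h' = h * of (⟨..⟩ * κ₁) * te s * of (vec (i • T' s))`, `k' • rayv + r' = κ₂.v - i • T' s` (bounded, so `|i|`, `|k'|` bounded). `h'` is not a base run: it is a step from `h₁'`, `h' = h₁' * of ⟨k''•rayv + r'', a''⟩ * te s`, `prev_plane`:
`h₁'` is in the plane of `h`; `final_offset` for the point `⟨..⟩ * κ₁ * T(s)^i` of this plane; `line_ftp` and `seg` with `s' = crossW .. ++ rayW e' k' ++ [of ⟨r', a'⟩]` of bounded length. -/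
theorem ftp_out (n2 : ℕ) : ∃ K : ℕ, ∀ (w1 w1' : List GG) (h h' : GG) (b b' : Bool) (e e' : ℤˣ) (R R' : RF)
    (k k' : ℤ) (r r' : ℤ × ℤ) (a a' : ZMod 4) (κ₁ κ₂ : KK) (s : ℤˣ),
    LRun w1 h b e R → LRun w1' h' b' e' R' → |sig e r| ≤ DD e → |del e r| ≤ 1 → |sig e' r'| ≤ DD e' → |del e' r'| ≤ 1 →
    h' * of ⟨k' • rayv e' + r', a'⟩ = h * of ⟨k • rayv e + r, a⟩ * of κ₁ * te s * of κ₂ →
    |κ₁.v.1| ≤ n2 → |κ₁.v.2| ≤ n2 → |κ₂.v.1| ≤ n2 → |κ₂.v.2| ≤ n2 →
    ¬ (b = false ∧ s = -e ∧ ∃ j : ℤ, (⟨k • rayv e + r, a⟩ : KK) * κ₁ = vec (j • T' e)) →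
    ∀ t, dG (pt (w1 ++ rayW e k ++ [of ⟨r, a⟩]) t) (pt (w1' ++ rayW e' k' ++ [of ⟨r', a'⟩]) t) ≤ K := by
  obtain ⟨K1, hK1⟩ := line_ftp (2 * (4 * n2 + 3) + 8) (by omega)
  obtain ⟨K2, hK2⟩ := seg (2 * (4 * n2 + 3) + 8) (12 * n2 + 31)
  refine ⟨max K1 K2, ?_⟩
  intro w1 w1' h h' b b' e e' R R' k k' r r' a a' κ₁ κ₂ s h1 h2 hs1 hd1 hs2 hd2 heq hκ1 hκ2 hκ3 hκ4 hout
  set x : KK := ⟨k • rayv e + r, a⟩ with hx
  set x' : KK := ⟨k' • rayv e' + r', a'⟩ with hx'
  -- the element behind the edge is reduced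
  have hRed : Red (h * of (x * κ₁) * te s) s := by
    cases hb : b with
    | false =>
      refine Red.step (x * κ₁) s ((lrun_red h1).1 hb) ?_
      intro hc
      exact hout ⟨hb, hc.1, hc.2⟩
    | true =>
      obtain ⟨-, k0, -, hh, -⟩ := (lrun_red h1).2 hb
      rw [hh, ← map_mul]
      exact Red.base _ _
  have hkey : h' = (h * of (x * κ₁) * te s) * of (κ₂ * x'⁻¹) := by
    rw [map_mul, map_mul, map_inv, ← mul_assoc, eq_mul_inv_iff_mul_eq, heq]
    simp only [mul_assoc]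
  -- the second run is not a base run
  have hb' : b' = false := by
    cases hb : b' with
    | false => rfl
    | true =>
      exfalso
      obtain ⟨-, k0, -, hh, -⟩ := (lrun_red h2).2 hb
      refine red_ne_of hRed (vec (k0 • (2, 2)) * (κ₂ * x'⁻¹)⁻¹) ?_
      have h3 : of (vec (k0 • (2, 2)) * (κ₂ * x'⁻¹)⁻¹) =
          of (vec (k0 • (2, 2))) * (of (κ₂ * x'⁻¹))⁻¹ := by rw [map_mul, map_inv]
      rw [h3, eq_mul_inv_iff_mul_eq, ← hkey, hh]
  obtain ⟨he', i, hi⟩ := red_unique (κ₂ * x'⁻¹) hRed ((lrun_red h2).1 hb') hkey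
  subst he'
  -- offset behind the edge
  have hx'eq : k' • rayv e' + r' = κ₂.v - i • T' e' := by
    have h3 : κ₂ = vec (i • T' e') * x' := by rw [← hi]; group
    have h4 := congrArg KK.v h3
    rw [KK.mul_v, vec_a, vec_v, rot_zero] at h4
    rw [h4, hx']
    simp
  obtain ⟨hi1, hk'⟩ := adjOut_near hs2 hd2 hκ3 hκ4 hx'eq
  rw [hi] at hkey
  -- the last step of the second run
  cases h2 with
  | base k0 => simp at hb'
  | @step w₂ h₁ b₁ e₁ R₁ k₂ r₂ a₂ _ hrun hcross =>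
    have hpp := prev_plane (h₁ := h) (h₁' := h₁) (v := (x * κ₁).v) (a := (x * κ₁).a) (i := i)
      (v' := k₂ • rayv e₁ + r₂) (a' := a₂) (e' := e') hkey
    obtain ⟨-, he₁, i₂, hi₂, -⟩ := lrun_compare h1 hrun _ hpp
    subst he₁
    have h5 : (⟨(x * κ₁).v + i • rot (x * κ₁).a (T e'), (x * κ₁).a⟩ : KK) =
        vec (i₂ • T' e₁) * ⟨k₂ • rayv e₁ + r₂, a₂⟩ := by
      rw [← hi₂]; group
    have h6 := congrArg KK.v h5
    change (x * κ₁).v + i • rot (x * κ₁).a (T e') =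
      i₂ • T' e₁ + rot 0 (k₂ • rayv e₁ + r₂) at h6
    rw [rot_zero] at h6
    have h7 : k₂ • rayv e₁ + r₂ = k • rayv e₁ + r + (rot a κ₁.v + i • rot (x * κ₁).a (T e')) -
        i₂ • T' e₁ := by
      have h8 : (x * κ₁).v = k • rayv e₁ + r + rot a κ₁.v := by rw [KK.mul_v, hx]
      have h9 : k₂ • rayv e₁ + r₂ = (x * κ₁).v + i • rot (x * κ₁).a (T e') - i₂ • T' e₁ := by
        rw [h6]; simp
      rw [h9, h8]
      simp only [add_assoc]
    have hr1 := adjOut_rot_abs a κ₁.v n2 hκ1 hκ2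
    have hT := adjOut_T e'
    have hr2 := adjOut_rot_abs (x * κ₁).a (T e') 3 hT.1 hT.2
    have hb1 : |(rot a κ₁.v + i • rot (x * κ₁).a (T e')).1| ≤ ((4 * n2 + 3 : ℕ) : ℤ) := by
      have h8 : (rot a κ₁.v + i • rot (x * κ₁).a (T e')).1 =
          (rot a κ₁.v).1 + i * (rot (x * κ₁).a (T e')).1 := by simp
      rw [h8]
      refine le_trans (abs_add_le _ _) ?_
      rw [abs_mul]
      have h9 : |i| * |(rot (x * κ₁).a (T e')).1| ≤ (n2 + 1) * 3 :=
        mul_le_mul hi1 hr2.1 (abs_nonneg _) (by positivity)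
      push_cast
      linarith [hr1.1]
    have hb2 : |(rot a κ₁.v + i • rot (x * κ₁).a (T e')).2| ≤ ((4 * n2 + 3 : ℕ) : ℤ) := by
      have h8 : (rot a κ₁.v + i • rot (x * κ₁).a (T e')).2 =
          (rot a κ₁.v).2 + i * (rot (x * κ₁).a (T e')).2 := by simp
      rw [h8]
      refine le_trans (abs_add_le _ _) ?_
      rw [abs_mul]
      have h9 : |i| * |(rot (x * κ₁).a (T e')).2| ≤ (n2 + 1) * 3 :=
        mul_le_mul hi1 hr2.2 (abs_nonneg _) (by positivity)
      push_cast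
      linarith [hr1.2]
    obtain ⟨hoff1, hoff2⟩ := final_offset (4 * n2 + 3) hs1 hd1 hcross.1 hcross.2.1 hb1 hb2 h7
    have hpl : h₁ = h * of (vec (i₂ • T' e₁)) := by rw [hpp, hi₂]
    have hoff1' : |i₂| ≤ ((2 * (4 * n2 + 3) + 8 : ℕ) : ℤ) := by
      refine le_trans hoff1 ?_
      push_cast
      exact le_refl _
    have hline := hK1 w1 w₂ h h₁ b b₁ e₁ e₁ R R₁ i₂ h1 hrun hpl hoff1'
    have hcl := crossW_length e₁ r₂ a₂ e' hcross.1 hcross.2.1
    have hlen : (crossW e₁ r₂ a₂ e' ++ rayW e' k' ++ [of ⟨r', a'⟩]).length ≤ 12 * n2 + 31 := by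
      have hk'' : k'.natAbs ≤ 2 * n2 + 1 := by
        have := hk'
        rw [Int.abs_eq_natAbs] at this
        exact_mod_cast this
      have hrc : rayc e' ≤ 2 := by
        rcases Int.units_eq_one_or e' with h | h <;> rw [h] <;> decide
      have hm : k'.natAbs * rayc e' ≤ (2 * n2 + 1) * 2 := Nat.mul_le_mul hk'' hrc
      rw [List.length_append, List.length_append, rayW_length, List.length_singleton, hcl.1]
      have := hcl.2
      omega
    have hmem : ∀ y ∈ crossW e₁ r₂ a₂ e' ++ rayW e' k' ++ [of ⟨r', a'⟩], y ∈ XB := by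
      intro y hy
      rcases List.mem_append.1 hy with hy | hy
      · rcases List.mem_append.1 hy with hy | hy
        · exact crossW_mem e₁ r₂ a₂ e' hcross.1 hcross.2.1 y hy
        · exact rayW_mem e' k' y hy
      · rw [List.mem_singleton] at hy
        have := adjOut_small hs2 hd2
        exact (mem_XB y).2 (Or.inl ⟨r', a', this.1, this.2, hy⟩)
    have hmem1 : ∀ y ∈ [of (⟨r, a⟩ : KK)], y ∈ XB := by
      intro y hy
      rw [List.mem_singleton] at hy
      have := adjOut_small hs1 hd1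
      exact (mem_XB y).2 (Or.inl ⟨r, a, this.1, this.2, hy⟩)
    have hkk : |k - k₂| ≤ ((12 * n2 + 31 : ℕ) : ℤ) := by
      refine le_trans hoff2 ?_
      push_cast
      linarith [Int.natCast_nonneg n2]
    have hfin := hK2 w1 w₂ h h₁ b b₁ e₁ e₁ R R₁ i₂ k k₂ [of ⟨r, a⟩]
      (crossW e₁ r₂ a₂ e' ++ rayW e' k' ++ [of ⟨r', a'⟩]) K1 h1 hrun hpl hoff1' hkk
      (by rw [List.length_singleton]; omega) hlen hmem1 hmem hline
    intro t
    have := hfin t
    simpa only [List.append_assoc] using this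

end AutGeo
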