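import Pool.Agent.AutGeo.B.Compare

set_option autoImplicit false

namespace AutGeo

/-- one of the two directions is outward. If both crossings went back through the entry edges: `h = h₀ * of ⟨v,a⟩ * te e` (last step of the run) is reduced, `h' ` is in the plane of `h₀` with `e' = -e = s`, and `lrun_compare`/`red_unique` give that `⟨v,a⟩` is in the
line group of `T' e₀` with `e = -e₀`: contradiction to `crossOK_red` (or `h₀` in the base group, `h'` not: contradiction). -/
theorem out_or_out {w1 w1' : List GG} {h h' : GG} {b b' : Bool} {e e' : ℤˣ} {R R' : RF}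
    {x x' κ₁ κ₂ : KK} {s : ℤˣ} (h1 : LRun w1 h b e R) (h2 : LRun w1' h' b' e' R')
    (heq : h' * of x' = h * of x * of κ₁ * te s * of κ₂) :
    ¬ (b = false ∧ s = -e ∧ ∃ j : ℤ, x * κ₁ = vec (j • T' e)) ∨
    ¬ (b' = false ∧ -s = -e' ∧ ∃ j : ℤ, x' * κ₂⁻¹ = vec (j • T' e')) := by
  by_contra hcon
  rw [not_or, not_not, not_not] at hcon
  obtain ⟨⟨hb, hs, j, hj⟩, hb', hs', j', hj'⟩ := hcon
  subst hb
  subst hb'
  have hse : e' = s := (neg_injective hs').symm
  subst hse
  subst hs
  cases h1 with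
  | @step w₀ h₀ b₀ e₀ R₀ k r a _ h0 hc =>
    have e1 : h' * of (vec (j' • T' (-e))) = h₀ * of (⟨k • rayv e₀ + r, a⟩ * vec (j • T e)) := by
      have h3 := vecT_te (-e) j
      rw [T_neg, T'_neg, te_neg] at h3
      have h4 : h' * of (x' * κ₂⁻¹) = h₀ * of ⟨k • rayv e₀ + r, a⟩ * te e * of (x * κ₁)
          * te (-e) := by
        rw [map_mul, ← mul_assoc, heq, map_inv, map_mul]
        simp only [mul_assoc, mul_inv_cancel, mul_one]
      rw [hj', hj, te_neg, mul_assoc _ (of (vec (j • T' e))) _, h3] at h4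
      rw [h4, map_mul]
      group
    have e2 : h' = h₀ * of (⟨k • rayv e₀ + r, a⟩ * vec (j • T e) * (vec (j' • T' (-e)))⁻¹) := by
      rw [map_mul _ (⟨k • rayv e₀ + r, a⟩ * vec (j • T e)), ← mul_assoc, ← e1, map_inv]
      group
    obtain ⟨hb0, he0, i, hi, -⟩ := lrun_compare h0 h2 _ e2
    subst hb0
    subst he0
    rw [T'_neg] at hi
    refine crossOK_red hc ⟨(neg_neg e).symm, i + j' - j, ?_⟩
    rw [T'_neg]
    have h5 : (⟨k • rayv (-e) + r, a⟩ : KK) = vec (i • T e) * vec (j' • T e) * (vec (j • T e))⁻¹ := by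
      rw [← hi]; group
    rw [h5, vec_mul, vec_inv, vec_mul]
    congr 1
    rw [sub_smul, add_smul]
    abel

end AutGeo
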