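import Pool.Agent.AutGeo.B.AdjSame
import Pool.Agent.AutGeo.B.AdjOut
import Pool.Agent.AutGeo.B.OutOr

set_option autoImplicit false

namespace AutGeo

private lemma abs_rot_le (n2 : ℤ) (a : ZMod 4) (v : ℤ × ℤ) (h1 : |v.1| ≤ n2) (h2 : |v.2| ≤ n2) :
    |(rot a v).1| ≤ n2 ∧ |(rot a v).2| ≤ n2 := by
  rcases zmod4_cases a with rfl | rfl | rfl | rfl <;>
    simp only [rot_zero, rot_one, rot_two, rot_three, abs_neg] <;> exact ⟨by assumption, by assumption⟩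

/-- neighbours across an edge: `out_or_out`, `ftp_out` for `(g, g')` or for `(g', g)` (`g = g' * of κ₂⁻¹ * te (-s) * of κ₁⁻¹`, `dG_comm`) -/
theorem ftp_cross (n2 : ℕ) : ∃ K : ℕ, ∀ (w w' : List GG) (g g' : GG), FRun w g → FRun w' g' →
    (∃ (κ₁ κ₂ : KK) (s : ℤˣ), g' = g * of κ₁ * te s * of κ₂ ∧ |κ₁.v.1| ≤ n2 ∧ |κ₁.v.2| ≤ n2 ∧
      |κ₂.v.1| ≤ n2 ∧ |κ₂.v.2| ≤ n2) → ∀ t, dG (pt w t) (pt w' t) ≤ K := by
  obtain ⟨K, hK⟩ := ftp_out n2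
  refine ⟨K, ?_⟩
  rintro w w' g g' ⟨w1, h, b, e, R, k, r, a, hL, hr1, hr2, rfl, rfl⟩
    ⟨w1', h', b', e', R', k', r', a', hL', hr1', hr2', rfl, rfl⟩ ⟨κ₁, κ₂, s, heq, h1, h2, h3, h4⟩ t
  rcases out_or_out hL hL' heq with ho | ho
  · exact hK w1 w1' h h' b b' e e' R R' k k' r r' a a' κ₁ κ₂ s hL hL' hr1 hr2 hr1' hr2' heq h1 h2 h3 h4 ho t
  · rw [dG_comm]
    have b1 := abs_rot_le n2 (-κ₂.a) (-κ₂.v) (by simpa using h3) (by simpa using h4)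
    have b2 := abs_rot_le n2 (-κ₁.a) (-κ₁.v) (by simpa using h1) (by simpa using h2)
    refine hK w1' w1 h' h b' b e' e R' R k' k r' r a' a κ₂⁻¹ κ₁⁻¹ (-s) hL' hL hr1' hr2' hr1 hr2 ?_ b1.1 b1.2 b2.1 b2.2 ho t
    rw [heq, te_neg, map_inv, map_inv]
    group

end AutGeo
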