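import Pool.Agent.AutGeo.B.LineFTP

set_option autoImplicit false

namespace AutGeo

private lemma adjSame_small {e : ℤˣ} {r : ℤ × ℤ} (h1 : |sig e r| ≤ DD e) (h2 : |del e r| ≤ 1) :
    |r.1| ≤ 4 ∧ |r.2| ≤ 4 := by
  rcases Int.units_eq_one_or e with rfl | rfl
  · simp only [sig, del, DD, if_true] at h1 h2
    rw [abs_le] at h1 h2
    constructor <;> rw [abs_le] <;> constructor <;> omega
  · have : ¬ ((-1 : ℤˣ) = 1) := by decide
    simp only [sig, del, DD, this, if_false] at h1 h2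
    rw [abs_le] at h1 h2
    constructor <;> rw [abs_le] <;> constructor <;> omega

private lemma adjSame_rot_abs (a : ZMod 4) (v : ℤ × ℤ) (n : ℤ) (h1 : |v.1| ≤ n) (h2 : |v.2| ≤ n) :
    |(rot a v).1| ≤ n ∧ |(rot a v).2| ≤ n := by
  rcases zmod4_cases a with rfl | rfl | rfl | rfl <;>
    simp only [rot_zero, rot_one, rot_two, rot_three, abs_neg] <;> exact ⟨by assumption, by assumption⟩

/-- accepted words of elements of the same plane at bounded distance. `g' = g * of κ`: `h' = h * of (..)`, `lrun_compare`: same type, offset `i₁`, `final_offset` (`x = rot a κ.v`), `line_ftp`, `seg` (`s = [of ⟨r,a⟩]`). -/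
theorem ftp_same (n2 : ℕ) : ∃ K : ℕ, ∀ (w w' : List GG) (g g' : GG), FRun w g → FRun w' g' →
    (∃ κ : KK, g' = g * of κ ∧ |κ.v.1| ≤ n2 ∧ |κ.v.2| ≤ n2) → ∀ t, dG (pt w t) (pt w' t) ≤ K := by
  obtain ⟨K1, hK1⟩ := line_ftp (2 * n2 + 8) (by omega)
  obtain ⟨K2, hK2⟩ := seg (2 * n2 + 8) (2 * n2 + 8)
  refine ⟨max K1 K2, ?_⟩
  rintro w w' g g' ⟨w1, h, b, e, R, k, r, a, h1, hs1, hd1, rfl, rfl⟩
    ⟨w1', h', b', e', R', k', r', a', h2, hs2, hd2, rfl, rfl⟩ ⟨κ, hκ, hκ1, hκ2⟩ t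
  set x : KK := ⟨k • rayv e + r, a⟩ with hx
  set x' : KK := ⟨k' • rayv e' + r', a'⟩ with hx'
  have hkey : h' = h * of (x * κ * x'⁻¹) := by
    rw [map_mul, map_mul, map_inv, ← mul_assoc, ← mul_assoc, eq_mul_inv_iff_mul_eq, hκ]
  obtain ⟨-, he, i, hi, -⟩ := lrun_compare h1 h2 _ hkey
  subst he
  rw [hi] at hkey
  have h3 : x * κ = vec (i • T' e') * x' := by rw [← hi]; group
  have h4 := congrArg KK.v h3
  rw [KK.mul_v, KK.mul_v, vec_a, vec_v, rot_zero] at h4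
  have h5 : k' • rayv e' + r' = k • rayv e' + r + rot a κ.v - i • T' e' := by
    have h6 : k • rayv e' + r + rot a κ.v = i • T' e' + (k' • rayv e' + r') := h4
    rw [h6]; abel
  have hr := adjSame_rot_abs a κ.v n2 hκ1 hκ2
  obtain ⟨hi1, hkk⟩ := final_offset n2 hs1 hd1 hs2 hd2 hr.1 hr.2 h5
  have hi2 : |i| ≤ ((2 * n2 + 8 : ℕ) : ℤ) := by push_cast; exact hi1
  have hkk2 : |k - k'| ≤ ((2 * n2 + 8 : ℕ) : ℤ) := by push_cast; exact hkk
  have hmem : ∀ y ∈ [of (⟨r, a⟩ : KK)], y ∈ XB := by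
    intro y hy
    rw [List.mem_singleton] at hy
    have := adjSame_small hs1 hd1
    exact (mem_XB y).2 (Or.inl ⟨r, a, this.1, this.2, hy⟩)
  have hmem' : ∀ y ∈ [of (⟨r', a'⟩ : KK)], y ∈ XB := by
    intro y hy
    rw [List.mem_singleton] at hy
    have := adjSame_small hs2 hd2
    exact (mem_XB y).2 (Or.inl ⟨r', a', this.1, this.2, hy⟩)
  exact hK2 w1 w1' h h' b b' e' e' R R' i k k' [of ⟨r, a⟩] [of ⟨r', a'⟩] K1 h1 h2 hkey hi2 hkk2
    (by rw [List.length_singleton]; omega) (by rw [List.length_singleton]; omega) hmem hmem'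
    (hK1 w1 w1' h h' b b' e' e' R R' i h1 h2 hkey hi2) t

end AutGeo
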