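import Pool.Agent.AutGeo.B.BDefs

set_option autoImplicit false

namespace AutGeo

/-- the automaton of a bisimulation quotient -/
private def bisimNFA {G : Type} [Group G] {Nd Q : Type} (X : Finset G)
    (St : Nd → G → ℕ → Nd → Prop) (n0 : Nd) (Acc : Nd → Prop) (π : Nd → Q) (cmax : ℕ) :
    NFA ({x // x ∈ X} × Bool) (Q × Fin (cmax + 1)) where
  start := {s | s.1 = π n0 ∧ s.2.1 = 0}
  accept := {s | s.2.1 = 0 ∧ ∃ n, π n = s.1 ∧ Acc n}
  step := fun s x => {s' | x.2 = true ∧
    ((s.2.1 = 0 ∧ ∃ n m c, π n = s.1 ∧ St n x.1.1 c m ∧ π m = s'.1 ∧ s'.2.1 = c - 1) ∨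
      (x.1.1 = 1 ∧ s'.1 = s.1 ∧ s'.2.1 + 1 = s.2.1))}

/-- A transition system with a finite bisimulation quotient has a regular language of runs.
Proof: NFA with states `Q × Fin (cmax + 1)` (second component: number of letters `1` still to be read). Start `(π n0, 0)`;
`step (q, 0) (x, true) = {(q', c - 1) | ∃ n m c, π n = q ∧ St n x c m ∧ π m = q'}`, `step (q, j+1) (x, true) = {(q, j)}` if `x = 1`, else `∅`; `step _ (x, false) = ∅`; accept `(q,0)` with `∃ n, π n = q ∧ Acc n`.
Invariant: `(q, j)` is reachable by `w` iff all second components are `true` and there is a run with word `w.map .. ++ replicate j 1` ending in a node `m` with `π m = q` whose last step is being read (for `j > 0`).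
The bisimulation property is used to lift `π n = q`, `St n x c m` to the actual node of the run. Then `NFA.toDFA` (`NFA.toDFA_correct`). -/
theorem dfa_of_bisim {G : Type} [Group G] {Nd Q : Type} [Fintype Q] (X : Finset G) (h1 : (1 : G) ∈ X)
    (St : Nd → G → ℕ → Nd → Prop) (n0 : Nd) (Acc : Nd → Prop) (π : Nd → Q) (cmax : ℕ)
    (hX : ∀ n s c m, St n s c m → s ∈ X ∧ 1 ≤ c ∧ c ≤ cmax)
    (hπ : ∀ n n' s c m, π n = π n' → St n s c m → ∃ m', St n' s c m' ∧ π m' = π m)
    (hacc : ∀ n n', π n = π n' → (Acc n ↔ Acc n')) :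
    ∃ (σ : Type) (_ : Fintype σ) (M : DFA ({x // x ∈ X} × Bool) σ), ∀ w : List ({x // x ∈ X} × Bool),
      M.eval w ∈ M.accept ↔
        ((∀ p ∈ w, p.2 = true) ∧ ∃ g n, Run St n0 (w.map (fun p => p.1.1)) g n ∧ Acc n) := by
  classical
  set N := bisimNFA X St n0 Acc π cmax with hN
  -- soundness
  have hsound : ∀ (w : List ({x // x ∈ X} × Bool)) (q : Q × Fin (cmax + 1)), q ∈ N.eval w →
      (∀ p ∈ w, p.2 = true) ∧
      ∃ g n, Run St n0 (w.map (fun p => p.1.1) ++ List.replicate q.2.1 1) g n ∧ π n = q.1 := by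
    intro w
    induction w using List.reverseRecOn with
    | nil =>
      intro q hq
      rw [NFA.eval_nil] at hq
      obtain ⟨hq1, hq2⟩ := hq
      refine ⟨fun p hp => absurd hp List.not_mem_nil, 1, n0, ?_, hq1.symm⟩
      rw [hq2]
      exact Run.nil
    | append_singleton w x ih =>
      intro q' hq'
      rw [NFA.eval_append_singleton, NFA.mem_stepSet] at hq'
      obtain ⟨q, hq, hx, hcase⟩ := hq'
      obtain ⟨hall, g, n, hrun, hn⟩ := ih q hq
      refine ⟨?_, ?_⟩
      · intro p hp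
        rw [List.mem_append, List.mem_singleton] at hp
        rcases hp with hp | hp
        · exact hall p hp
        · rw [hp]; exact hx
      · rcases hcase with ⟨hq0, n1, m, c, hn1, hst, hm, hc⟩ | ⟨hx1, hq1, hq2⟩
        · obtain ⟨m', hst', hm'⟩ := hπ n1 n x.1.1 c m (hn1.trans hn.symm) hst
          rw [hq0, List.replicate_zero, List.append_nil] at hrun
          refine ⟨g * x.1.1, m', ?_, hm'.trans hm⟩
          have h3 := Run.step x.1.1 c m' hrun hst'
          rw [List.map_append, hc, List.append_assoc]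
          exact h3
        · refine ⟨g, n, ?_, hn.trans hq1.symm⟩
          rw [List.map_append, List.append_assoc]
          have h4 : (List.map (fun p : {x // x ∈ X} × Bool => p.1.1) [x])
              ++ List.replicate q'.2.1 (1 : G) = List.replicate q.2.1 1 := by
            rw [← hq2, List.replicate_succ]
            simp [hx1]
          rw [h4]
          exact hrun
  -- completeness
  have hones : ∀ (k : ℕ) (w w2 : List ({x // x ∈ X} × Bool)) (q : Q) (j : Fin (cmax + 1)),
      (∀ p ∈ w2, p.2 = true) → w2.map (fun p => p.1.1) = List.replicate k (1 : G) → j.1 = k →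
      (q, j) ∈ N.eval w → ∃ j0 : Fin (cmax + 1), j0.1 = 0 ∧ (q, j0) ∈ N.eval (w ++ w2) := by
    intro k
    induction k with
    | zero =>
      intro w w2 q j _ hw2 hj hq
      rw [List.replicate_zero, List.map_eq_nil_iff] at hw2
      subst hw2
      rw [List.append_nil]
      exact ⟨j, hj, hq⟩
    | succ k ih =>
      intro w w2 q j hall hw2 hj hq
      cases w2 with
      | nil => simp at hw2
      | cons x w2 =>
        rw [List.map_cons, List.replicate_succ, List.cons.injEq] at hw2
        obtain ⟨hx1, hw2⟩ := hw2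
        have hlt : k < cmax + 1 := by have := j.2; omega
        have hstep : (q, (⟨k, hlt⟩ : Fin (cmax + 1))) ∈ N.eval (w ++ [x]) := by
          rw [NFA.eval_append_singleton, NFA.mem_stepSet]
          refine ⟨(q, j), hq, hall x List.mem_cons_self, Or.inr ⟨hx1, rfl, ?_⟩⟩
          exact hj.symm
        obtain ⟨j0, hj0, hmem⟩ := ih (w ++ [x]) w2 q ⟨k, hlt⟩
          (fun p hp => hall p (List.mem_cons_of_mem _ hp)) hw2 rfl hstep
        refine ⟨j0, hj0, ?_⟩
        rw [List.append_assoc] at hmem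
        exact hmem
  have hcomp : ∀ (u : List G) (g : G) (n : Nd), Run St n0 u g n →
      ∀ w : List ({x // x ∈ X} × Bool), (∀ p ∈ w, p.2 = true) → w.map (fun p => p.1.1) = u →
      ∃ j0 : Fin (cmax + 1), j0.1 = 0 ∧ (π n, j0) ∈ N.eval w := by
    intro u g n hrun
    induction hrun with
    | nil =>
      intro w _ hw
      rw [List.map_eq_nil_iff] at hw
      subst hw
      refine ⟨⟨0, Nat.succ_pos _⟩, rfl, ?_⟩
      rw [NFA.eval_nil]
      exact ⟨rfl, rfl⟩
    | @step u1 g1 n1 s c m hrun1 hst ih =>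
      intro w hall hw
      obtain ⟨w1, w', rfl, hw1, hw'⟩ := List.map_eq_append_iff.mp hw
      obtain ⟨x, w2, rfl, hx, hw2⟩ := List.map_eq_cons_iff.mp hw'
      obtain ⟨j1, hj1, hmem1⟩ := ih w1
        (fun p hp => hall p (List.mem_append_left _ hp)) hw1
      obtain ⟨-, hc1, hc2⟩ := hX _ _ _ _ hst
      have hlt : c - 1 < cmax + 1 := by omega
      have hstep : (π m, (⟨c - 1, hlt⟩ : Fin (cmax + 1))) ∈ N.eval (w1 ++ [x]) := by
        rw [NFA.eval_append_singleton, NFA.mem_stepSet]
        refine ⟨(π n1, j1), hmem1,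
          hall x (List.mem_append_right _ List.mem_cons_self), Or.inl ⟨hj1, n1, m, c, rfl, ?_, rfl, rfl⟩⟩
        rw [hx]; exact hst
      obtain ⟨j0, hj0, hmem⟩ := hones (c - 1) (w1 ++ [x]) w2 (π m) ⟨c - 1, hlt⟩
        (fun p hp => hall p (List.mem_append_right _ (List.mem_cons_of_mem _ hp))) hw2 rfl hstep
      refine ⟨j0, hj0, ?_⟩
      rw [List.append_assoc] at hmem
      exact hmem
  refine ⟨Set (Q × Fin (cmax + 1)), inferInstance, N.toDFA, fun w => ?_⟩
  have h5 : N.toDFA.eval w ∈ N.toDFA.accept ↔ w ∈ N.accepts := by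
    rw [← NFA.toDFA_correct]; rfl
  rw [h5, NFA.mem_accepts]
  constructor
  · rintro ⟨q, hq, hacc'⟩
    obtain ⟨hq0, n1, hn1, hn1'⟩ : q.2.1 = 0 ∧ ∃ n, π n = q.1 ∧ Acc n := by
      first
        | exact hq
        | exact hacc'
    obtain ⟨hall, g, n, hrun, hn⟩ := hsound w q (by
      first
        | exact hq
        | exact hacc')
    rw [hq0, List.replicate_zero, List.append_nil] at hrun
    exact ⟨hall, g, n, hrun, (hacc n1 n (hn1.trans hn.symm)).mp hn1'⟩
  · rintro ⟨hall, g, n, hrun, hn⟩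
    obtain ⟨j0, hj0, hmem⟩ := hcomp _ g n hrun w hall rfl
    first
      | exact ⟨(π n, j0), ⟨hj0, n, rfl, hn⟩, hmem⟩
      | exact ⟨(π n, j0), hmem, ⟨hj0, n, rfl, hn⟩⟩

end AutGeo
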