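import Pool.Agent.AutGeo.Defs

set_option autoImplicit false

/-!
# Part B: definitions (the automatic structure)
-/

namespace AutGeo

/-- coordinate along the entry line of a plane of type `e` (`sig (T' e) = DD e`) -/
def sig (e : ℤˣ) (v : ℤ × ℤ) : ℤ := if e = 1 then v.1 + v.2 else v.1

/-- transversal coordinate -/
def del (e : ℤˣ) (v : ℤ × ℤ) : ℤ := if e = 1 then v.1 - v.2 else v.2

/-- `sig` of the entry direction -/
def DD (e : ℤˣ) : ℤ := if e = 1 then 4 else 3

/-- cost per unit of `sig`; `chi e * DD e = 12` -/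
def chi (e : ℤˣ) : ℤ := if e = 1 then 3 else 4

/-- ray vector -/
def rayv (e : ℤˣ) : ℤ × ℤ := if e = 1 then (1, -1) else (0, 1)

/-- time of a ray step, `|del (rayv e)|` -/
def rayc (e : ℤˣ) : ℕ := if e = 1 then 2 else 1

/-- the exit line is parallel to the entry line -/
def IsPar (e : ℤˣ) (a : ZMod 4) (e' : ℤˣ) : Prop := e' = -e ∧ (a = 0 ∨ a = 2)

instance (e : ℤˣ) (a : ZMod 4) (e' : ℤˣ) : Decidable (IsPar e a e') := by
  unfold IsPar; infer_instance

/-- extension of a time function `R` on the line to points with coordinate `s`: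
in the parallel case the value at the floor, otherwise `min_i (R i + chi |s - DD i|)` -/
def Ev (e : ℤˣ) (P : Prop) [Decidable P] (R : ℤ → ℤ) (s : ℤ) : ℤ :=
  if P then R (s / DD e)
  else min (R (s / DD e) + chi e * (s - DD e * (s / DD e)))
    (R (s / DD e + 1) + chi e * (DD e * (s / DD e + 1) - s))

/-- the time function on the exit line through `v` with direction `rot a (T e')` -/
def nextR (e : ℤˣ) (R : ℤ → ℤ) (v : ℤ × ℤ) (a : ZMod 4) (e' : ℤˣ) (j : ℤ) : ℤ :=
  Ev e (IsPar e a e') R (sig e (v + j • rot a (T e'))) + |del e (v + j • rot a (T e'))| + 1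

/-- 12-Lipschitz -/
def Lip (R : ℤ → ℤ) : Prop := ∀ i j, |R i - R j| ≤ 12 * |i - j|

lemma sig_add (e : ℤˣ) (v w : ℤ × ℤ) : sig e (v + w) = sig e v + sig e w := by
  unfold sig; split_ifs <;> simp <;> ring

lemma sig_smul (e : ℤˣ) (j : ℤ) (v : ℤ × ℤ) : sig e (j • v) = j * sig e v := by
  unfold sig; split_ifs <;> simp <;> ring

lemma sig_sub (e : ℤˣ) (v w : ℤ × ℤ) : sig e (v - w) = sig e v - sig e w := by
  unfold sig; split_ifs <;> simp <;> ring

lemma del_add (e : ℤˣ) (v w : ℤ × ℤ) : del e (v + w) = del e v + del e w := by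
  unfold del; split_ifs <;> simp <;> ring

lemma del_smul (e : ℤˣ) (j : ℤ) (v : ℤ × ℤ) : del e (j • v) = j * del e v := by
  unfold del; split_ifs <;> simp <;> ring

lemma del_sub (e : ℤˣ) (v w : ℤ × ℤ) : del e (v - w) = del e v - del e w := by
  unfold del; split_ifs <;> simp <;> ring

lemma sig_T' (e : ℤˣ) : sig e (T' e) = DD e := by
  rcases Int.units_eq_one_or e with rfl | rfl <;> decide

lemma del_T' (e : ℤˣ) : del e (T' e) = 0 := by
  rcases Int.units_eq_one_or e with rfl | rfl <;> decide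

lemma sig_rayv (e : ℤˣ) : sig e (rayv e) = 0 := by
  rcases Int.units_eq_one_or e with rfl | rfl <;> decide

lemma del_rayv (e : ℤˣ) : del e (rayv e) = rayc e := by
  rcases Int.units_eq_one_or e with rfl | rfl <;> decide

lemma sig_del_inj (e : ℤˣ) (v w : ℤ × ℤ) (h1 : sig e v = sig e w) (h2 : del e v = del e w) : v = w := by
  rcases Int.units_eq_one_or e with rfl | rfl
  · simp only [sig, del, if_true] at h1 h2
    ext <;> omega
  · have : ¬ ((-1 : ℤˣ) = 1) := by decide
    simp only [sig, del, this, if_false] at h1 h2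
    exact Prod.ext h1 h2

lemma DD_pos (e : ℤˣ) : 0 < DD e := by
  rcases Int.units_eq_one_or e with rfl | rfl <;> decide

lemma chi_mul_DD (e : ℤˣ) : chi e * DD e = 12 := by
  rcases Int.units_eq_one_or e with rfl | rfl <;> decide

lemma chi_pos (e : ℤˣ) : 0 < chi e := by
  rcases Int.units_eq_one_or e with rfl | rfl <;> decide

/-- `Ev` is the minimum over all positions -/
lemma Ev_le (e : ℤˣ) (P : Prop) [Decidable P] (hP : ¬ P) (R : ℤ → ℤ) (hR : Lip R) (s i : ℤ) :
    Ev e P R s ≤ R i + chi e * |s - DD e * i| := by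
  unfold Ev
  rw [if_neg hP]
  have hq := Int.emod_add_mul_ediv s (DD e)
  have hq1 := Int.emod_nonneg s (DD_pos e).ne'
  have hq2 := Int.emod_lt_of_pos s (DD_pos e)
  set q := s / DD e with hqdef
  have hcd := chi_mul_DD e
  have hc := chi_pos e
  rcases le_or_gt i q with h | h
  · refine le_trans (min_le_left _ _) ?_
    have h1 := hR q i
    rw [abs_of_nonneg (show (0:ℤ) ≤ q - i by omega)] at h1
    have h2 := (abs_le.1 h1).2
    have h3 : 0 ≤ s - DD e * i := by nlinarith [DD_pos e]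
    rw [abs_of_nonneg h3]
    have h4 : chi e * (s - DD e * i) = chi e * (s - DD e * q) + (chi e * DD e) * (q - i) := by ring
    rw [h4, hcd]
    linarith
  · refine le_trans (min_le_right _ _) ?_
    have h1 := hR (q + 1) i
    rw [abs_of_nonpos (show q + 1 - i ≤ (0:ℤ) by omega)] at h1
    have h2 := (abs_le.1 h1).2
    have h3 : s - DD e * i ≤ 0 := by nlinarith [DD_pos e]
    rw [abs_of_nonpos h3]
    have h4 : chi e * -(s - DD e * i) = chi e * (DD e * (q + 1) - s) + (chi e * DD e) * (i - (q + 1)) := by ring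
    rw [h4, hcd]
    linarith

/-- the minimum is attained at `s / DD e` or `s / DD e + 1` -/
lemma Ev_eq (e : ℤˣ) (P : Prop) [Decidable P] (hP : ¬ P) (R : ℤ → ℤ) (s : ℤ) :
    ∃ i, (i = s / DD e ∨ i = s / DD e + 1) ∧ Ev e P R s = R i + chi e * |s - DD e * i| := by
  unfold Ev
  rw [if_neg hP]
  have hq := Int.emod_add_mul_ediv s (DD e)
  have hq1 := Int.emod_nonneg s (DD_pos e).ne'
  have hq2 := Int.emod_lt_of_pos s (DD_pos e)
  set q := s / DD e with hqdef
  rcases min_choice (R q + chi e * (s - DD e * q)) (R (q + 1) + chi e * (DD e * (q + 1) - s)) with h | h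
  · refine ⟨q, Or.inl rfl, ?_⟩
    rw [h, abs_of_nonneg (show 0 ≤ s - DD e * q by linarith)]
  · refine ⟨q + 1, Or.inr rfl, ?_⟩
    rw [h, abs_of_nonpos (show s - DD e * (q + 1) ≤ 0 by linarith)]
    ring

lemma Ev_lip (e : ℤˣ) (P : Prop) [Decidable P] (hP : ¬ P) (R : ℤ → ℤ) (hR : Lip R) (s s' : ℤ) :
    |Ev e P R s - Ev e P R s'| ≤ chi e * |s - s'| := by
  have key : ∀ s s', Ev e P R s ≤ Ev e P R s' + chi e * |s - s'| := by
    intro s s'
    obtain ⟨i, -, hi⟩ := Ev_eq e P hP R s'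
    have h1 := Ev_le e P hP R hR s i
    have h2 : |s - DD e * i| ≤ |s - s'| + |s' - DD e * i| := by
      have := abs_add_le (s - s') (s' - DD e * i)
      simpa using this
    have h3 := mul_le_mul_of_nonneg_left h2 (chi_pos e).le
    rw [mul_add] at h3
    linarith
  rw [abs_le]
  have h1 := key s s'
  have h2 := key s' s
  rw [abs_sub_comm s' s] at h2
  constructor <;> linarith

/-- property (*) of the exit directions -/
lemma exit_dir (e : ℤˣ) (a : ZMod 4) (e' : ℤˣ) :
    (IsPar e a e' ∧ ((a = 0 ∧ rot a (T e') = T' e) ∨ (a = 2 ∧ rot a (T e') = - T' e))) ∨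
    (¬ IsPar e a e' ∧ chi e * |sig e (rot a (T e'))| + |del e (rot a (T e'))| ≤ 12 ∧
      4 * |sig e (rot a (T e'))| ≤ 3 * DD e ∧ |del e (rot a (T e'))| ≤ 4) := by
  rcases Int.units_eq_one_or e with rfl | rfl <;> rcases Int.units_eq_one_or e' with rfl | rfl <;>
    rcases zmod4_cases a with rfl | rfl | rfl | rfl <;> decide

/-- `nextR` is 12-Lipschitz -/
lemma nextR_lip (e : ℤˣ) (R : ℤ → ℤ) (hR : Lip R) (v : ℤ × ℤ) (a : ZMod 4) (e' : ℤˣ) :
    Lip (nextR e R v a e') := by
  intro i j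
  unfold nextR
  simp only [sig_add, sig_smul, del_add, del_smul]
  rcases exit_dir e a e' with ⟨hp, h⟩ | ⟨hp, h, -, -⟩
  · have hdir : (rot a (T e') = T' e) ∨ (rot a (T e') = - T' e) := by
      rcases h with h | h
      · exact Or.inl h.2
      · exact Or.inr h.2
    have hE : ∀ s, Ev e (IsPar e a e') R s = R (s / DD e) := fun s => by unfold Ev; rw [if_pos hp]
    rw [hE, hE]
    have hnegs : ∀ v, sig e (-v) = - sig e v := fun v => by
      have := sig_smul e (-1) v; simpa using this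
    have hnegd : ∀ v, del e (-v) = - del e v := fun v => by
      have := del_smul e (-1) v; simpa using this
    rcases hdir with h | h
    · rw [h, sig_T', del_T']
      simp only [mul_zero, add_zero]
      rw [Int.add_mul_ediv_right _ _ (DD_pos e).ne', Int.add_mul_ediv_right _ _ (DD_pos e).ne']
      have := hR (sig e v / DD e + i) (sig e v / DD e + j)
      have h2 : sig e v / DD e + i - (sig e v / DD e + j) = i - j := by ring
      rw [h2] at this
      simpa using this
    · rw [h, hnegs, hnegd, sig_T', del_T']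
      simp only [neg_zero, mul_zero, add_zero]
      have h1 : ∀ i : ℤ, (sig e v + i * -DD e) / DD e = sig e v / DD e - i := by
        intro i
        rw [show sig e v + i * -DD e = sig e v + (-i) * DD e by ring, Int.add_mul_ediv_right _ _ (DD_pos e).ne']
        ring
      rw [h1, h1]
      have := hR (sig e v / DD e - i) (sig e v / DD e - j)
      have h2 : sig e v / DD e - i - (sig e v / DD e - j) = -(i - j) := by ring
      rw [h2, abs_neg] at this
      simpa using this
  · have h1 := Ev_lip e (IsPar e a e') hp R hR (sig e v + i * sig e (rot a (T e'))) (sig e v + j * sig e (rot a (T e')))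
    have h2 : sig e v + i * sig e (rot a (T e')) - (sig e v + j * sig e (rot a (T e'))) =
        (i - j) * sig e (rot a (T e')) := by ring
    rw [h2, abs_mul] at h1
    have h3 := abs_abs_sub_abs_le_abs_sub (del e v + i * del e (rot a (T e'))) (del e v + j * del e (rot a (T e')))
    have h4 : del e v + i * del e (rot a (T e')) - (del e v + j * del e (rot a (T e'))) =
        (i - j) * del e (rot a (T e')) := by ring
    rw [h4, abs_mul] at h3
    have h5 : |i - j| * (chi e * |sig e (rot a (T e'))| + |del e (rot a (T e'))|) ≤ |i - j| * 12 :=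
      mul_le_mul_of_nonneg_left h (abs_nonneg _)
    rw [abs_le] at h1 h3 ⊢
    constructor <;> nlinarith

/-- Lipschitz time functions -/
def RF : Type := {R : ℤ → ℤ // Lip R}

/-- `nextR` for the bundled functions -/
def nextRF (e : ℤˣ) (R : RF) (v : ℤ × ℤ) (a : ZMod 4) (e' : ℤˣ) : RF :=
  ⟨nextR e R.1 v a e', nextR_lip e R.1 R.2 v a e'⟩

/-- time function of the first line, seen from the point `k` -/
def R0 (k : ℤ) : RF := ⟨fun j => 12 * |k + j|, by
  intro i j
  have h := abs_abs_sub_abs_le_abs_sub (k + i) (k + j)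
  have h2 : k + i - (k + j) = i - j := by ring
  rw [h2] at h
  rw [← mul_sub, abs_mul]
  have : |(12 : ℤ)| = 12 := by norm_num
  rw [this]
  linarith⟩

/-- time of a crossing letter -/
def crossc (e : ℤˣ) (r : ℤ × ℤ) (a : ZMod 4) (e' : ℤˣ) : ℕ :=
  (if IsPar e a e' then 0 else (chi e * |sig e r|).toNat) + (del e r).natAbs + 1

/-- conditions for a crossing from the ray position `k` with the correction `r` -/
def CrossOK (b : Bool) (e : ℤˣ) (R : RF) (k : ℤ) (r : ℤ × ℤ) (a : ZMod 4) (e' : ℤˣ) : Prop :=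
  |sig e r| ≤ DD e ∧ |del e r| ≤ 1 ∧ |del e (k • rayv e + r)| = |k| * rayc e + |del e r| ∧
  (IsPar e a e' → 0 ≤ sig e r ∧ sig e r < DD e) ∧
  (¬ IsPar e a e' → Ev e (IsPar e a e') R.1 (sig e r) = R.1 0 + chi e * |sig e r|) ∧
  ¬ (b = false ∧ k • rayv e + r = 0 ∧ a = 0 ∧ e' = -e)

/-- Nodes of the (infinite) transition system. -/
inductive Node : Type
  | start (k : ℤ) : Node
  | ray (b : Bool) (e : ℤˣ) (R : RF) (k : ℤ) : Node
  | fin : Node

/-- Steps: letter and time. -/
inductive Step : Node → GG → ℕ → Node → Prop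
  | sp (k : ℤ) : 0 ≤ k → Step (.start k) (of (vec (2, 2))) 12 (.start (k + 1))
  | sm (k : ℤ) : k ≤ 0 → Step (.start k) (of (vec (-(2, 2)))) 12 (.start (k - 1))
  | enter (k : ℤ) : Step (.start k) 1 1 (.ray true 1 (R0 k) 0)
  | rp (b : Bool) (e : ℤˣ) (R : RF) (k : ℤ) : 0 ≤ k →
      Step (.ray b e R k) (of (vec (rayv e))) (rayc e) (.ray b e R (k + 1))
  | rm (b : Bool) (e : ℤˣ) (R : RF) (k : ℤ) : k ≤ 0 →
      Step (.ray b e R k) (of (vec (-rayv e))) (rayc e) (.ray b e R (k - 1))
  | cross (b : Bool) (e : ℤˣ) (R : RF) (k : ℤ) (r : ℤ × ℤ) (a : ZMod 4) (e' : ℤˣ) :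
      CrossOK b e R k r a e' →
      Step (.ray b e R k) (of ⟨r, a⟩ * te e') (crossc e r a e')
        (.ray false e' (nextRF e R (k • rayv e + r) a e') 0)
  | last (b : Bool) (e : ℤˣ) (R : RF) (k : ℤ) (r : ℤ × ℤ) (a : ZMod 4) :
      |sig e r| ≤ DD e → |del e r| ≤ 1 → Step (.ray b e R k) (of ⟨r, a⟩) 1 .fin

/-- Runs of a transition system: the word of a step is the letter followed by `c - 1` letters `1`. -/
inductive Run {G : Type} [Group G] {Nd : Type} (St : Nd → G → ℕ → Nd → Prop) (n0 : Nd) : List G → G → Nd → Prop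
  | nil : Run St n0 [] 1 n0
  | step {w : List G} {g : G} {n : Nd} (s : G) (c : ℕ) (m : Nd) : Run St n0 w g n → St n s c m →
      Run St n0 (w ++ s :: List.replicate (c - 1) 1) (g * s) m

/-- word of the first line -/
noncomputable def startW (k : ℤ) : List GG :=
  (List.replicate k.natAbs (of (vec (k.sign • (2, 2))) :: List.replicate 11 1)).flatten ++ [1]

/-- word of `k` ray steps -/
noncomputable def rayW (e : ℤˣ) (k : ℤ) : List GG :=
  (List.replicate k.natAbs (of (vec (k.sign • rayv e)) :: List.replicate (rayc e - 1) 1)).flatten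

/-- word of a crossing -/
noncomputable def crossW (e : ℤˣ) (r : ℤ × ℤ) (a : ZMod 4) (e' : ℤˣ) : List GG :=
  (of ⟨r, a⟩ * te e') :: List.replicate (crossc e r a e' - 1) 1

/-- runs that end on an entry line: word, group element, base plane?, type, time function -/
inductive LRun : List GG → GG → Bool → ℤˣ → RF → Prop
  | base (k : ℤ) : LRun (startW k) (of (vec (k • (2, 2)))) true 1 (R0 k)
  | step {w : List GG} {h : GG} {b : Bool} {e : ℤˣ} {R : RF} (k : ℤ) (r : ℤ × ℤ) (a : ZMod 4) (e' : ℤˣ) :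
      LRun w h b e R → CrossOK b e R k r a e' →
      LRun (w ++ rayW e k ++ crossW e r a e') (h * of ⟨k • rayv e + r, a⟩ * te e') false e'
        (nextRF e R (k • rayv e + r) a e')

/-- accepted words -/
def FRun (w : List GG) (g : GG) : Prop :=
  ∃ (w1 : List GG) (h : GG) (b : Bool) (e : ℤˣ) (R : RF) (k : ℤ) (r : ℤ × ℤ) (a : ZMod 4),
    LRun w1 h b e R ∧ |sig e r| ≤ DD e ∧ |del e r| ≤ 1 ∧ w = w1 ++ rayW e k ++ [of ⟨r, a⟩] ∧
      g = h * of ⟨k • rayv e + r, a⟩

open Classical in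
/-- the alphabet -/
noncomputable def XB : Finset GG :=
  (((Finset.Icc (-4 : ℤ) 4 ×ˢ Finset.Icc (-4 : ℤ) 4) ×ˢ (Finset.univ : Finset (ZMod 4))).image
    (fun x => of (⟨x.1, x.2⟩ : KK))) ∪
  ((((Finset.Icc (-4 : ℤ) 4 ×ˢ Finset.Icc (-4 : ℤ) 4) ×ˢ (Finset.univ : Finset (ZMod 4))) ×ˢ
    (Finset.univ : Finset ℤˣ)).image (fun x => of (⟨x.1.1, x.1.2⟩ : KK) * te x.2))

set_option linter.constructorNameAsVariable false in
lemma mem_XB (x : GG) : x ∈ XB ↔
    (∃ (r : ℤ × ℤ) (a : ZMod 4), |r.1| ≤ 4 ∧ |r.2| ≤ 4 ∧ x = of ⟨r, a⟩) ∨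
    (∃ (r : ℤ × ℤ) (a : ZMod 4) (e : ℤˣ), |r.1| ≤ 4 ∧ |r.2| ≤ 4 ∧ x = of ⟨r, a⟩ * te e) := by
  classical
  unfold XB
  rw [Finset.mem_union, Finset.mem_image, Finset.mem_image]
  constructor
  · rintro (⟨⟨r, a⟩, hr, hx⟩ | ⟨⟨⟨r, a⟩, e⟩, hr, hx⟩)
    · simp only [Finset.mem_product, Finset.mem_Icc, Finset.mem_univ, and_true] at hr
      exact Or.inl ⟨r, a, abs_le.2 hr.1, abs_le.2 hr.2, hx.symm⟩
    · simp only [Finset.mem_product, Finset.mem_Icc, Finset.mem_univ, and_true] at hr
      exact Or.inr ⟨r, a, e, abs_le.2 hr.1, abs_le.2 hr.2, hx.symm⟩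
  · rintro (⟨r, a, h1, h2, rfl⟩ | ⟨r, a, e, h1, h2, rfl⟩)
    · refine Or.inl ⟨(r, a), ?_, rfl⟩
      simp only [Finset.mem_product, Finset.mem_Icc, Finset.mem_univ, and_true]
      exact ⟨abs_le.1 h1, abs_le.1 h2⟩
    · refine Or.inr ⟨((r, a), e), ?_, rfl⟩
      simp only [Finset.mem_product, Finset.mem_Icc, Finset.mem_univ, and_true]
      exact ⟨abs_le.1 h1, abs_le.1 h2⟩

attribute [irreducible] XB

end AutGeo
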