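import Pool.Agent.AutGeo.B.Shape

set_option autoImplicit false

namespace AutGeo

private theorem Ev_shift (e : ℤˣ) (P : Prop) [Decidable P] (R R' : ℤ → ℤ) (i₁ : ℤ)
    (hR : ∀ j, R' j = R (i₁ + j)) (s : ℤ) :
    Ev e P R' (s - i₁ * DD e) = Ev e P R s := by
  have hq : (s - i₁ * DD e) / DD e = s / DD e - i₁ := by
    rw [sub_eq_add_neg, ← neg_mul, Int.add_mul_ediv_right _ _ (DD_pos e).ne']
    ring
  unfold Ev
  rw [hq, hR, hR]
  have h1 : i₁ + (s / DD e - i₁) = s / DD e := by ring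
  have h2 : i₁ + (s / DD e - i₁ + 1) = s / DD e + 1 := by ring
  have h3 : s - i₁ * DD e - DD e * (s / DD e - i₁) = s - DD e * (s / DD e) := by ring
  have h4 : DD e * (s / DD e - i₁ + 1) - (s - i₁ * DD e) = DD e * (s / DD e + 1) - s := by ring
  rw [h1, h2, h3, h4]

/-- `nextR` and shifts: new base point `v + i A - i₁ B` and `R(i₁ + .)` give `nextR (i + .)` -/
theorem nextR_shift (e : ℤˣ) (R R' : ℤ → ℤ) (v : ℤ × ℤ) (a : ZMod 4) (e' : ℤˣ) (i i₁ : ℤ)
    (hR : ∀ j, R' j = R (i₁ + j)) (j : ℤ) :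
    nextR e R' (v + i • rot a (T e') - i₁ • T' e) a e' j = nextR e R v a e' (i + j) := by
  unfold nextR
  have hs : sig e (v + i • rot a (T e') - i₁ • T' e + j • rot a (T e')) =
      sig e (v + (i + j) • rot a (T e')) - i₁ * DD e := by
    rw [sig_add, sig_sub, sig_add, sig_add, sig_smul, sig_smul, sig_smul, sig_smul, sig_T']
    ring
  have hd : del e (v + i • rot a (T e') - i₁ • T' e + j • rot a (T e')) =
      del e (v + (i + j) • rot a (T e')) := by
    rw [del_add, del_sub, del_add, del_add, del_smul, del_smul, del_smul, del_smul, del_T']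
    ring
  rw [hs, hd, Ev_shift e _ R R' i₁ hR]

/-- the previous crossing of two elements with the same last crossing (Britton):
`h = h₁ ⟨v,a⟩ t^e'`, `h' = h₁' ⟨v',a'⟩ t^e'`, `h' = h * of (vec (i • T' e'))` implies `h₁' = h₁ * of κ` with `κ = ⟨v + i • rot a (T e'), a⟩ * ⟨v', a'⟩⁻¹`. -/
theorem prev_plane {h₁ h₁' : GG} {v v' : ℤ × ℤ} {a a' : ZMod 4} {e' : ℤˣ} {i : ℤ}
    (h : h₁' * of ⟨v', a'⟩ * te e' = h₁ * of ⟨v, a⟩ * te e' * of (vec (i • T' e'))) :
    h₁' = h₁ * of (⟨v + i • rot a (T e'), a⟩ * ⟨v', a'⟩⁻¹) := by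
  rw [mul_assoc (h₁ * of ⟨v, a⟩), ← vecT_te, ← mul_assoc] at h
  have h2 := mul_right_cancel h
  have h3 : (⟨v + i • rot a (T e'), a⟩ : KK) = ⟨v, a⟩ * vec (i • T e') := by
    ext1
    · change _ = v + rot a (i • T e')
      rw [rot_smul]
    · simp
  rw [map_mul, map_inv, h3, map_mul, ← mul_assoc, ← mul_assoc, ← h2]
  group

/-- B2. Induction on the first run; the second run is of the same kind by `red_ne_of`/`lrun_red`. Base: `k' - k = i`. Step: `red_unique` gives `e' = e` and `i`; `prev_plane`, induction hypothesis for the parents: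
`κ = vec (i₁ • T' e₁)`, so `a' = a`, `v' = v + i A - i₁ B`; `nextR_shift`. -/
theorem lrun_compare {w w' : List GG} {h h' : GG} {b b' : Bool} {e e' : ℤˣ} {R R' : RF}
    (h1 : LRun w h b e R) (h2 : LRun w' h' b' e' R') (k : KK) (hk : h' = h * of k) :
    b' = b ∧ e' = e ∧ ∃ i : ℤ, k = vec (i • T' e) ∧ ∀ j, R'.1 j = R.1 (i + j) := by
  induction h1 generalizing w' h' b' e' R' k with
  | base k0 =>
    rcases h2 with ⟨k'⟩ | ⟨k2, r, a, e2, h3, hc⟩
    · refine ⟨rfl, rfl, k' - k0, ?_, ?_⟩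
      · rw [← map_mul] at hk
        have h4 := HNNExtension.of_injective phi hk
        have h5 : k = (vec (k0 • (2, 2)))⁻¹ * vec (k' • (2, 2)) := by
          rw [h4]; group
        rw [h5, vec_inv, vec_mul, T'_one, sub_smul]
        congr 1
        abel
      · intro j
        simp only [R0]
        congr 2
        ring
    · exfalso
      have hr := (lrun_red (LRun.step k2 r a _ h3 hc)).1 rfl
      refine red_ne_of hr (vec (k0 • (2, 2)) * k) ?_
      rw [hk, map_mul]
  | @step w1 h₁ b₁ e₁ R₁ k1 r1 a1 e1 h3 hc ih =>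
    have hr := (lrun_red (LRun.step k1 r1 a1 e1 h3 hc)).1 rfl
    cases h2 with
    | base k' =>
      exfalso
      refine red_ne_of hr (vec (k' • (2, 2)) * k⁻¹) ?_
      rw [map_mul, hk, map_inv]
      group
    | @step w1' h₁' b₁' e₁' R₁' k1' r1' a1' e1' h3' hc' =>
      have hr' := (lrun_red (LRun.step k1' r1' a1' _ h3' hc')).1 rfl
      obtain ⟨he, i, hi⟩ := red_unique k hr hr' hk
      subst he
      refine ⟨rfl, rfl, i, hi, ?_⟩
      rw [hi] at hk
      have h4 := prev_plane hk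
      obtain ⟨hb, he1, i₁, hi₁, hR⟩ := ih h3' _ h4
      subst hb
      subst he1
      have h5 : (⟨k1 • rayv e₁' + r1 + i • rot a1 (T e'), a1⟩ : KK) =
          vec (i₁ • T' e₁') * ⟨k1' • rayv e₁' + r1', a1'⟩ := by
        rw [← hi₁]; group
      have ha : a1 = a1' := by
        have := congrArg KK.a h5
        simpa using this
      subst ha
      have hv : k1' • rayv e₁' + r1' = k1 • rayv e₁' + r1 + i • rot a1 (T e') - i₁ • T' e₁' := by
        have := congrArg KK.v h5
        simp only [KK.mul_v, vec_a, vec_v, rot_zero] at this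
        rw [this]
        abel
      intro j
      simp only [nextRF]
      rw [hv]
      exact nextR_shift e₁' R₁.1 R₁'.1 _ a1 e' i i₁ hR j

end AutGeo
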