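import Pool.Agent.AutGeo.B.StepMem
import Pool.Agent.AutGeo.G.WordLen

set_option autoImplicit false

namespace AutGeo

/-- distance for the alphabet `XB` -/
noncomputable def dG (g h : GG) : ℕ := wlen XB (g⁻¹ * h)

/-- point of a word at time `t` -/
noncomputable def pt (w : List GG) (t : ℕ) : GG := (w.take t).prod

theorem dG_self (g : GG) : dG g g = 0 := by
  rw [dG, inv_mul_cancel, wlen_one]

theorem dG_comm (g h : GG) : dG g h = dG h g := by
  rw [dG, dG, ← wlen_inv XB XB_closure (g⁻¹ * h), mul_inv_rev, inv_inv]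

theorem dG_tri (g h k : GG) : dG g k ≤ dG g h + dG h k := by
  have h1 : g⁻¹ * k = (g⁻¹ * h) * (h⁻¹ * k) := by group
  rw [dG, dG, dG, h1]
  exact wlen_mul XB XB_closure _ _

theorem dG_left (x g h : GG) : dG (x * g) (x * h) = dG g h := by
  have h1 : (x * g)⁻¹ * (x * h) = g⁻¹ * h := by group
  rw [dG, dG, h1]

/-- product with a word over `XB` of length `n` -/
theorem dG_mul_list (g : GG) (l : List GG) (hl : ∀ x ∈ l, x ∈ XB) :
    dG g (g * l.prod) ≤ l.length := by
  have h1 : g⁻¹ * (g * l.prod) = l.prod := by group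
  rw [dG, h1]
  have h2 : wval XB (l.attach.map fun y => ((⟨y.1, hl y.1 y.2⟩ : {x // x ∈ XB}), true)) =
      l.prod := by
    rw [wval, List.map_map]
    congr 1
    conv_rhs => rw [← List.attach_map_subtype_val l]
    exact List.map_congr_left fun y _ => by simp
  have h3 := wlen_le XB
    (l.attach.map fun y => ((⟨y.1, hl y.1 y.2⟩ : {x // x ∈ XB}), true))
  rw [h2] at h3
  simpa using h3

private lemma vec_nsmul_list (x : ℤ × ℤ) : ∀ n : ℕ,
    (List.replicate n (of (vec x))).prod = of (vec (n • x))
  | 0 => by simp [vec_zero]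
  | (n + 1) => by
    rw [List.replicate_succ, List.prod_cons, vec_nsmul_list x n, ← map_mul, vec_mul,
      succ_nsmul']

private lemma exists_int_list (x : ℤ × ℤ) (hx1 : |x.1| ≤ 4) (hx2 : |x.2| ≤ 4) (n : ℤ) :
    ∃ l : List GG, (∀ y ∈ l, y ∈ XB) ∧ (l.length : ℤ) = |n| ∧ l.prod = of (vec (n • x)) := by
  rcases le_total 0 n with hn | hn
  · refine ⟨List.replicate n.toNat (of (vec x)), ?_, ?_, ?_⟩
    · intro y hy
      rw [List.eq_of_mem_replicate hy]
      exact of_mem_XB x 0 hx1 hx2
    · rw [List.length_replicate, abs_of_nonneg hn]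
      omega
    · rw [vec_nsmul_list]
      congr 2
      have : n = (n.toNat : ℤ) := by omega
      conv_rhs => rw [this]
      rw [natCast_zsmul]
  · refine ⟨List.replicate (-n).toNat (of (vec (-x))), ?_, ?_, ?_⟩
    · intro y hy
      rw [List.eq_of_mem_replicate hy]
      exact of_mem_XB (-x) 0 (by simpa using hx1) (by simpa using hx2)
    · rw [List.length_replicate, abs_of_nonpos hn]
      omega
    · rw [vec_nsmul_list]
      congr 2
      have : n = -((-n).toNat : ℤ) := by omega
      conv_rhs => rw [this]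
      rw [neg_smul, natCast_zsmul, smul_neg]

/-- planes are Lipschitz -/
theorem dG_of (g : GG) (k : KK) : dG g (g * of k) ≤ (|k.v.1| + |k.v.2|).toNat + 1 := by
  obtain ⟨l₁, h1, h1', h1''⟩ := exists_int_list (1, 0) (by norm_num) (by norm_num) k.v.1
  obtain ⟨l₂, h2, h2', h2''⟩ := exists_int_list (0, 1) (by norm_num) (by norm_num) k.v.2
  have h3 : of k = (l₁ ++ l₂ ++ [of (⟨0, k.a⟩ : KK)]).prod := by
    rw [List.prod_append, List.prod_append, h1'', h2'', List.prod_singleton, ← map_mul,
      ← map_mul]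
    congr 1
    ext1
    · ext <;> simp [rot_zero]
    · simp
  have h4 : ∀ x ∈ l₁ ++ l₂ ++ [of (⟨0, k.a⟩ : KK)], x ∈ XB := by
    intro x hx
    rw [List.mem_append, List.mem_append] at hx
    rcases hx with (hx | hx) | hx
    · exact h1 x hx
    · exact h2 x hx
    · rw [List.mem_singleton] at hx
      rw [hx]
      exact of_mem_XB 0 k.a (by norm_num) (by norm_num)
  have h5 := dG_mul_list g _ h4
  rw [← h3] at h5
  refine h5.trans (le_of_eq ?_)
  rw [List.length_append, List.length_append, List.length_singleton]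
  omega

theorem dG_te (g : GG) (e : ℤˣ) : dG g (g * te e) ≤ 1 := by
  have h1 : te e ∈ XB := by
    have h := of_te_mem_XB 0 0 e (by norm_num) (by norm_num)
    have h2 : of (⟨0, 0⟩ : KK) = 1 := map_one of
    rwa [h2, one_mul] at h
  have h2 := dG_mul_list g [te e] (by
    intro x hx
    rw [List.mem_singleton] at hx
    rw [hx]; exact h1)
  simpa using h2

/-- points of words over `XB`: `|s - t|`-close -/
theorem pt_lip (w : List GG) (hw : ∀ x ∈ w, x ∈ XB) (s t : ℕ) (hst : s ≤ t) :
    dG (pt w s) (pt w t) ≤ t - s := by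
  have h1 : pt w t = pt w s * ((w.drop s).take (t - s)).prod := by
    rw [pt, pt, ← List.prod_append]
    congr 1
    have : t = s + (t - s) := by omega
    conv_lhs => rw [this]
    rw [List.take_add]
  rw [h1]
  refine (dG_mul_list _ _ fun x hx => hw x ?_).trans ?_
  · exact List.mem_of_mem_drop (List.mem_of_mem_take hx)
  · rw [List.length_take]
    omega

end AutGeo
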