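import Pool.Agent.AutGeo.B.Dist

set_option autoImplicit false

namespace AutGeo

private lemma distRun_small {e : ℤˣ} {r : ℤ × ℤ} (h1 : |sig e r| ≤ DD e) (h2 : |del e r| ≤ 1) :
    |r.1| ≤ 4 ∧ |r.2| ≤ 4 := by
  rcases Int.units_eq_one_or e with rfl | rfl
  · simp only [sig, del, DD, if_true] at h1 h2
    rw [abs_le] at h1 h2
    constructor <;> rw [abs_le] <;> constructor <;> omega
  · have : ¬ ((-1 : ℤˣ) = 1) := by decide
    simp only [sig, del, DD, this, if_false] at h1 h2
    rw [abs_le] at h1 h2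
    constructor <;> rw [abs_le] <;> constructor <;> omega

private lemma distRun_sign_smul (k : ℤ) (v : ℤ × ℤ) (h1 : |v.1| ≤ 4) (h2 : |v.2| ≤ 4) :
    |(k.sign • v).1| ≤ 4 ∧ |(k.sign • v).2| ≤ 4 := by
  have hs : k.sign = 1 ∨ k.sign = 0 ∨ k.sign = -1 := by
    rcases lt_trichotomy k 0 with h | h | h
    · exact Or.inr (Or.inr (Int.sign_eq_neg_one_of_neg h))
    · exact Or.inr (Or.inl (by rw [h]; rfl))
    · exact Or.inl (Int.sign_eq_one_of_pos h)
  rcases hs with h | h | h <;> rw [h] <;> simp [h1, h2]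

private lemma distRun_block_mem (x : GG) (hx : x ∈ XB) (n m : ℕ) :
    ∀ y ∈ (List.replicate n (x :: List.replicate m 1)).flatten, y ∈ XB := by
  intro y hy
  rw [List.mem_flatten] at hy
  obtain ⟨l, hl, hy⟩ := hy
  rw [List.eq_of_mem_replicate hl] at hy
  rcases List.mem_cons.1 hy with hy | hy
  · rw [hy]; exact hx
  · rw [List.eq_of_mem_replicate hy]; exact one_mem_XB

private lemma distRun_startW_mem (k : ℤ) : ∀ x ∈ startW k, x ∈ XB := by
  intro x hx
  rw [startW] at hx
  rcases List.mem_append.1 hx with hx | hx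
  · refine distRun_block_mem _ ?_ _ _ x hx
    have := distRun_sign_smul k (2, 2) (by norm_num) (by norm_num)
    exact of_mem_XB _ 0 this.1 this.2
  · rw [List.mem_singleton.1 hx]; exact one_mem_XB

theorem rayW_mem (e : ℤˣ) (k : ℤ) : ∀ x ∈ rayW e k, x ∈ XB := by
  intro x hx
  rw [rayW] at hx
  refine distRun_block_mem _ ?_ _ _ x hx
  have hv : |(rayv e).1| ≤ 4 ∧ |(rayv e).2| ≤ 4 := by
    rcases Int.units_eq_one_or e with rfl | rfl <;> decide
  have := distRun_sign_smul k (rayv e) hv.1 hv.2
  exact of_mem_XB _ 0 this.1 this.2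

theorem crossW_mem (e : ℤˣ) (r : ℤ × ℤ) (a : ZMod 4) (e' : ℤˣ) (h1 : |sig e r| ≤ DD e) (h2 : |del e r| ≤ 1) :
    ∀ x ∈ crossW e r a e', x ∈ XB := by
  intro x hx
  rw [crossW] at hx
  have hr := distRun_small h1 h2
  rcases List.mem_cons.1 hx with hx | hx
  · rw [hx]; exact of_te_mem_XB r a e' hr.1 hr.2
  · rw [List.eq_of_mem_replicate hx]; exact one_mem_XB

/-- the letters of runs are in `XB` -/
theorem lrun_mem {w : List GG} {h : GG} {b : Bool} {e : ℤˣ} {R : RF} (hr : LRun w h b e R) : ∀ x ∈ w, x ∈ XB := by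
  induction hr with
  | base k => exact distRun_startW_mem k
  | @step w h b e R k r a e' hrun hc ih =>
    intro x hx
    rcases List.mem_append.1 hx with hx | hx
    · rcases List.mem_append.1 hx with hx | hx
      · exact ih x hx
      · exact rayW_mem e k x hx
    · exact crossW_mem e r a e' hc.1 hc.2.1 x hx

theorem crossW_length (e : ℤˣ) (r : ℤ × ℤ) (a : ZMod 4) (e' : ℤˣ) (h1 : |sig e r| ≤ DD e) (h2 : |del e r| ≤ 1) :
    (crossW e r a e').length = crossc e r a e' ∧ crossc e r a e' ≤ 14 := by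
  constructor
  · rw [crossW, List.length_cons, List.length_replicate]
    have : 1 ≤ crossc e r a e' := by unfold crossc; omega
    omega
  · unfold crossc
    have h3 : (chi e * |sig e r|).toNat ≤ 12 := by
      have h4 := mul_le_mul_of_nonneg_left h1 (chi_pos e).le
      rw [chi_mul_DD] at h4
      omega
    have h5 : (del e r).natAbs ≤ 1 := by
      rw [Int.abs_eq_natAbs] at h2
      exact_mod_cast h2
    have h6 : (if IsPar e a e' then 0 else (chi e * |sig e r|).toNat) ≤ 12 := by
      split_ifs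
      · omega
      · exact h3
    omega

private lemma distRun_take (x : GG) (c : ℕ) (hc1 : 1 ≤ c) (hc2 : c ≤ 2) : ∀ (n t : ℕ),
    ∃ κ : ℕ, κ ≤ n ∧
      (((List.replicate n (x :: List.replicate (c - 1) 1)).flatten).take t).prod = x ^ κ ∧
      min t (n * c) ≤ κ * c ∧ κ * c ≤ min t (n * c) + 1
  | 0, t => ⟨0, le_refl _, by simp, by simp, by simp⟩
  | (n + 1), t => by
    rw [List.replicate_succ, List.flatten_cons]
    have hlen : (x :: List.replicate (c - 1) (1 : GG)).length = c := by
      rw [List.length_cons, List.length_replicate]; omega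
    rcases Nat.eq_zero_or_pos t with ht | ht
    · refine ⟨0, Nat.zero_le _, ?_, ?_, ?_⟩
      · rw [ht]; simp
      · rw [ht]; simp
      · rw [ht]; simp
    · rcases lt_or_ge t c with htc | htc
      · have ht1 : t = 1 := by omega
        have hc : c = 2 := by omega
        refine ⟨1, by omega, ?_, ?_, ?_⟩
        · rw [ht1]; simp
        · rw [ht1]; have := Nat.min_le_left 1 ((n + 1) * c); omega
        · rw [ht1, hc]
          have : min 1 ((n + 1) * 2) = 1 := by
            apply Nat.min_eq_left; omega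
          omega
      · obtain ⟨κ, hκ1, hκ2, hκ3, hκ4⟩ := distRun_take x c hc1 hc2 n (t - c)
        have hsum : (n + 1) * c = n * c + c := by ring
        have hsum2 : (κ + 1) * c = κ * c + c := by ring
        refine ⟨κ + 1, by omega, ?_, ?_, ?_⟩
        · rw [List.take_append, hlen, List.prod_append, hκ2,
            List.take_of_length_le (by rw [hlen]; exact htc)]
          rw [List.prod_cons, List.prod_replicate, one_pow, mul_one, pow_succ']
        · rw [hsum, hsum2]; omega
        · rw [hsum, hsum2]; omega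

private lemma distRun_pow (v : ℤ × ℤ) : ∀ κ : ℕ, (of (vec v)) ^ κ = of (vec ((κ : ℤ) • v))
  | 0 => by simp [vec_zero]
  | (κ + 1) => by
    rw [pow_succ, distRun_pow v κ, ← map_mul, vec_mul]
    congr 2
    push_cast
    rw [add_smul, one_smul]

/-- position on a ray: after `t` letters of `rayW e k` one is at `κ` ray steps, `κ` determined by `t` up to a bounded error -/
theorem ray_point (e : ℤˣ) (k : ℤ) (t : ℕ) :
    ∃ κ : ℕ, κ ≤ k.natAbs ∧ pt (rayW e k) t = of (vec ((k.sign * κ) • rayv e)) ∧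
      min t (k.natAbs * rayc e) ≤ κ * rayc e ∧ κ * rayc e ≤ min t (k.natAbs * rayc e) + 1 := by
  have hc : 1 ≤ rayc e ∧ rayc e ≤ 2 := by
    rcases Int.units_eq_one_or e with rfl | rfl <;> decide
  obtain ⟨κ, h1, h2, h3, h4⟩ := distRun_take (of (vec (k.sign • rayv e))) (rayc e) hc.1 hc.2 k.natAbs t
  refine ⟨κ, h1, ?_, h3, h4⟩
  rw [pt, rayW, h2, distRun_pow, smul_smul, mul_comm]

end AutGeo
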