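import Pool.Agent.AutGeo.B.Compare

set_option autoImplicit false

namespace AutGeo

private lemma trunc_dec (c : ℤ) (hc : c = 1 ∨ c = 2) (d : ℤ) :
    ∃ k s : ℤ, d = k * c + s ∧ |s| ≤ 1 ∧ |d| = |k| * c + |s| := by
  rcases hc with rfl | rfl
  · exact ⟨d, 0, by ring, by simp, by simp⟩
  · rcases le_or_gt 0 d with h | h
    · refine ⟨d / 2, d % 2, by omega, ?_, ?_⟩
      · rw [abs_of_nonneg (by omega)]; omega
      · rw [abs_of_nonneg h, abs_of_nonneg (show 0 ≤ d / 2 by omega),
          abs_of_nonneg (show 0 ≤ d % 2 by omega)]; omega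
    · refine ⟨-((-d) / 2), -((-d) % 2), by omega, ?_, ?_⟩
      · rw [abs_neg, abs_of_nonneg (by omega)]; omega
      · rw [abs_of_neg h, abs_neg, abs_neg, abs_of_nonneg (show 0 ≤ (-d) / 2 by omega),
          abs_of_nonneg (show 0 ≤ (-d) % 2 by omega)]; omega

/-- decomposition of a vector: `v = k • rayv e + r`, with additivity of `|del|` -/
theorem ray_decomp (e : ℤˣ) (v : ℤ × ℤ) :
    ∃ (k : ℤ) (r : ℤ × ℤ), v = k • rayv e + r ∧ sig e r = sig e v ∧ |del e r| ≤ 1 ∧
      |del e (k • rayv e + r)| = |k| * rayc e + |del e r| := by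
  have hc : (rayc e : ℤ) = 1 ∨ (rayc e : ℤ) = 2 := by
    rcases Int.units_eq_one_or e with rfl | rfl <;> decide
  obtain ⟨k, s, h1, h2, h3⟩ := trunc_dec (rayc e) hc (del e v)
  have hr : k • rayv e + (v - k • rayv e) = v := by abel
  have hd : del e (v - k • rayv e) = s := by
    rw [del_sub, del_smul, del_rayv, h1]; ring
  refine ⟨k, v - k • rayv e, hr.symm, ?_, ?_, ?_⟩
  · rw [sig_sub, sig_smul, sig_rayv]; ring
  · rw [hd]; exact h2
  · rw [hr, hd]; exact h3

private lemma Ev_shift (e : ℤˣ) (P : Prop) [Decidable P] (R R' : ℤ → ℤ) (s i : ℤ)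
    (h : ∀ j, R' j = R (i + j)) : Ev e P R' (s - i * DD e) = Ev e P R s := by
  have hq : (s - i * DD e) / DD e = s / DD e - i := by
    rw [show s - i * DD e = s + (-i) * DD e by ring,
      Int.add_mul_ediv_right _ _ (DD_pos e).ne']; ring
  unfold Ev
  rw [hq, h, h, show i + (s / DD e - i) = s / DD e by ring,
    show i + (s / DD e - i + 1) = s / DD e + 1 by ring,
    show s - i * DD e - DD e * (s / DD e - i) = s - DD e * (s / DD e) by ring,
    show DD e * (s / DD e - i + 1) - (s - i * DD e) = DD e * (s / DD e + 1) - s by ring]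

/-- choice of the parent position -/
private lemma choose_pos (b : Bool) (e : ℤˣ) (R : RF) (V : ℤ × ℤ) (a : ZMod 4) (e' : ℤˣ)
    (hex : ¬ (b = false ∧ a = 0 ∧ e' = -e ∧ ∃ j : ℤ, V = j • T' e)) :
    ∃ (i : ℤ) (k : ℤ) (r : ℤ × ℤ), V = i • T' e + (k • rayv e + r) ∧
      ∀ R' : RF, (∀ j, R'.1 j = R.1 (i + j)) → CrossOK b e R' k r a e' := by
  have hD := DD_pos e
  have hm := Int.emod_add_mul_ediv (sig e V) (DD e)
  have hm1 := Int.emod_nonneg (sig e V) hD.ne'
  have hm2 := Int.emod_lt_of_pos (sig e V) hD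
  have main : ∀ i : ℤ, |sig e V - i * DD e| ≤ DD e →
      (IsPar e a e' → 0 ≤ sig e V - i * DD e ∧ sig e V - i * DD e < DD e) →
      (¬ IsPar e a e' →
        Ev e (IsPar e a e') R.1 (sig e V) = R.1 i + chi e * |sig e V - i * DD e|) →
      ∃ (i : ℤ) (k : ℤ) (r : ℤ × ℤ), V = i • T' e + (k • rayv e + r) ∧
        ∀ R' : RF, (∀ j, R'.1 j = R.1 (i + j)) → CrossOK b e R' k r a e' := by
    intro i h1 h2 h3
    obtain ⟨k, r, g1, g2, g3, g4⟩ := ray_decomp e (V - i • T' e)
    have hs : sig e r = sig e V - i * DD e := by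
      rw [g2, sig_sub, sig_smul, sig_T']
    have hV : V = i • T' e + (k • rayv e + r) := by
      rw [← g1]; abel
    refine ⟨i, k, r, hV, fun R' hR' => ⟨?_, g3, g4, ?_, ?_, ?_⟩⟩
    · rw [hs]; exact h1
    · intro hp; rw [hs]; exact h2 hp
    · intro hp
      rw [hs, Ev_shift e _ R.1 R'.1 (sig e V) i hR', h3 hp, hR', add_zero]
    · rintro ⟨hb, hk, ha, he⟩
      refine hex ⟨hb, ha, he, i, ?_⟩
      rw [hV, hk, add_zero]
  by_cases hp : IsPar e a e'
  · have e1 : sig e V - sig e V / DD e * DD e = sig e V % DD e := by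
      linarith [hm, mul_comm (DD e) (sig e V / DD e)]
    refine main (sig e V / DD e) ?_ (fun _ => ?_) (fun h => absurd hp h)
    · rw [e1, abs_of_nonneg hm1]; exact hm2.le
    · rw [e1]; exact ⟨hm1, hm2⟩
  · obtain ⟨i, hi, hE⟩ := Ev_eq e (IsPar e a e') hp R.1 (sig e V)
    refine main i ?_ (fun h => absurd h hp) (fun _ => ?_)
    · rcases hi with rfl | rfl
      · rw [abs_le]; constructor <;> nlinarith
      · rw [abs_le]; constructor <;> nlinarith
    · rw [hE, mul_comm (DD e) i]

private lemma T'_ne_zero_smul (e : ℤˣ) {i j : ℤ} (h : i • T' e = j • T' e) : i = j := by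
  have h1 := congrArg (sig e) h
  rw [sig_smul, sig_smul, sig_T'] at h1
  exact mul_right_cancel₀ (DD_pos e).ne' h1

private lemma mk_mul_vec_T (v : ℤ × ℤ) (a : ZMod 4) (i : ℤ) (e : ℤˣ) :
    (⟨v, a⟩ : KK) * vec (i • T e) = ⟨v + i • rot a (T e), a⟩ := by
  ext1
  · change v + rot a (i • T e) = v + i • rot a (T e)
    rw [rot_smul]
  · simp

private lemma vec_mul_mk (w v : ℤ × ℤ) (a : ZMod 4) : vec w * (⟨v, a⟩ : KK) = ⟨w + v, a⟩ := by
  ext1
  · simp [rot_zero]
  · simp

private lemma cross_shift (h : GG) (v : ℤ × ℤ) (a : ZMod 4) (i : ℤ) (e : ℤˣ) :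
    h * of ⟨v, a⟩ * te e * of (vec (i • T' e)) = h * of ⟨v + i • rot a (T e), a⟩ * te e := by
  rw [← mk_mul_vec_T v a i e, map_mul, mul_assoc (h * of ⟨v, a⟩) (te e), ← vecT_te e i]
  simp only [mul_assoc]

private lemma base_step (v : ℤ × ℤ) (a : ZMod 4) (e' : ℤˣ) :
    ∃ (w : List GG) (R : RF), LRun w (of ⟨v, a⟩ * te e') false e' R := by
  obtain ⟨i, k, r, hV, hC⟩ := choose_pos true 1 (R0 0) v a e' (by simp)
  have hR : ∀ j, (R0 i).1 j = (R0 0).1 (i + j) := by
    intro j
    change 12 * |i + j| = 12 * |0 + (i + j)|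
    rw [zero_add]
  have hrun := LRun.step k r a e' (LRun.base i) (hC (R0 i) hR)
  have he : of (vec (i • (2, 2))) * of ⟨k • rayv 1 + r, a⟩ * te e' = of ⟨v, a⟩ * te e' := by
    rw [← map_mul, vec_mul_mk, hV]
    rfl
  rw [he] at hrun
  exact ⟨_, _, hrun⟩

/-- B3: every reduced element, at every position of its entry line, is reached by a line run.
Induction on `Red`. Base: `h = of k * te e` : parent in the base plane: `h * of (vec (i • T' e)) = of (⟨v + i • rot a (T e), a⟩) * te e`, `k = ⟨v,a⟩`; choose `i₁` = floor of `sig (v + iA)/4` in the parallel case, otherwise the minimiser of `Ev_eq` for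
`R₀ = R0 0`; start from `LRun.base i₁` (`R0 i₁ j = R0 0 (i₁ + j)`), `ray_decomp` of `v + i A - i₁ B`. Step: the same with the line runs at the positions `i₁` of the previous line (induction hypothesis for all positions; their time functions are shifts of each other by `lrun_compare`):
fix the run at position 0 with time function `R`, choose `i₁` for `R`, take the run at `i₁`, its function is `R (i₁ + .)`. Not excluded by the last condition of `CrossOK` because the sequence is reduced. -/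
theorem lrun_exists {h : GG} {e : ℤˣ} (hr : Red h e) (i : ℤ) :
    ∃ (w : List GG) (R : RF), LRun w (h * of (vec (i • T' e))) false e R := by
  induction hr generalizing i with
  | base k e =>
    obtain ⟨v, a⟩ := k
    have h1 := cross_shift 1 v a i e
    rw [one_mul, one_mul] at h1
    rw [h1]
    exact base_step _ _ _
  | @step h e κ e' hred hne ih =>
    obtain ⟨v, a⟩ := κ
    rw [cross_shift]
    obtain ⟨w₀, R₀, hrun₀⟩ := ih 0
    obtain ⟨i₁, k, r, hV, hC⟩ := choose_pos false e R₀ (v + i • rot a (T e')) a e' (by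
      rintro ⟨-, ha, he, j, hj⟩
      refine hne ⟨he, j - i, ?_⟩
      subst ha
      subst he
      rw [rot_zero, T_neg] at hj
      have hv : v = (j - i) • T' e := by
        rw [sub_smul, ← hj]; abel
      rw [hv]
      rfl)
    obtain ⟨w₁, R₁, hrun₁⟩ := ih i₁
    have hk : h * of (vec (i₁ • T' e)) = h * of (vec ((0 : ℤ) • T' e)) * of (vec (i₁ • T' e)) := by
      rw [zero_smul, vec_zero, map_one, mul_one]
    obtain ⟨-, -, i₂, h2, h3⟩ := lrun_compare hrun₀ hrun₁ (vec (i₁ • T' e)) hk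
    have h4 : i₁ = i₂ := T'_ne_zero_smul e (congrArg KK.v h2)
    subst h4
    have hrun := LRun.step k r a e' hrun₁ (hC R₁ h3)
    have he : h * of (vec (i₁ • T' e)) * of ⟨k • rayv e + r, a⟩ * te e' =
        h * of ⟨v + i • rot a (T e'), a⟩ * te e' := by
      rw [mul_assoc h, ← map_mul, vec_mul_mk, hV]
    rw [he] at hrun
    exact ⟨_, _, hrun⟩

/-- B3: every element has an accepted word: `exists_red`; `g = h * of ⟨v,a⟩`, position `i = sig v / DD`, run at `h * of (vec (i • T' e))`, `ray_decomp` of `v - i • T' e`. -/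
theorem frun_surj (g : GG) : ∃ w, FRun w g := by
  have key : ∀ (h : GG) (b : Bool) (e : ℤˣ) (v : ℤ × ℤ) (a : ZMod 4),
      (∀ i : ℤ, ∃ (w : List GG) (R : RF), LRun w (h * of (vec (i • T' e))) b e R) →
      ∃ w, FRun w (h * of ⟨v, a⟩) := by
    intro h b e v a hall
    have hD := DD_pos e
    have hm := Int.emod_add_mul_ediv (sig e v) (DD e)
    have hm1 := Int.emod_nonneg (sig e v) hD.ne'
    have hm2 := Int.emod_lt_of_pos (sig e v) hD
    set i := sig e v / DD e with hi
    obtain ⟨w, R, hrun⟩ := hall i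
    obtain ⟨k, r, g1, g2, g3, g4⟩ := ray_decomp e (v - i • T' e)
    have hs : sig e r = sig e v - i * DD e := by
      rw [g2, sig_sub, sig_smul, sig_T']
    have hV : v = i • T' e + (k • rayv e + r) := by
      rw [← g1]; abel
    have h1 : |sig e r| ≤ DD e := by
      have : sig e r = sig e v % DD e := by
        rw [hs]; linarith [mul_comm (DD e) i]
      rw [this, abs_of_nonneg hm1]; exact hm2.le
    refine ⟨_, w, _, b, e, R, k, r, a, hrun, h1, g3, rfl, ?_⟩
    rw [mul_assoc h, ← map_mul, vec_mul_mk, ← hV]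
  rcases exists_red g with ⟨⟨v, a⟩, rfl⟩ | ⟨h, e, ⟨v, a⟩, hr, rfl⟩
  · have := key 1 true 1 v a (fun i => ⟨_, _, by
      rw [one_mul]; exact LRun.base i⟩)
    rw [one_mul] at this
    exact this
  · exact key h false e v a (lrun_exists hr)

end AutGeo
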