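import Pool.Agent.AutGeo.B.Adj

set_option autoImplicit false

namespace AutGeo

private lemma abs_rot_le (n2 : ℤ) (a : ZMod 4) (v : ℤ × ℤ) (h1 : |v.1| ≤ n2) (h2 : |v.2| ≤ n2) :
    |(rot a v).1| ≤ n2 ∧ |(rot a v).2| ≤ n2 := by
  rcases zmod4_cases a with rfl | rfl | rfl | rfl <;>
    simp only [rot_zero, rot_one, rot_two, rot_three, abs_neg] <;> exact ⟨by assumption, by assumption⟩

/-- fellow travelling of the accepted words, in terms of group elements: `x ∈ XB`, `g' = g`, `g' = g x` or `g' = g x⁻¹`. By `XB_form` these are the cases of `ftp_same 4` and `ftp_cross 8`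
(`(of ⟨r,a⟩ * te e)⁻¹ = of 1 * te (-e) * of ⟨r,a⟩⁻¹`). -/
theorem ftp_all : ∃ K : ℕ, ∀ (w w' : List GG) (g g' : GG), FRun w g → FRun w' g' →
    (g' = g ∨ ∃ x ∈ XB, g' = g * x ∨ g' = g * x⁻¹) → ∀ t, dG (pt w t) (pt w' t) ≤ K := by
  obtain ⟨K1, hK1⟩ := ftp_same 4
  obtain ⟨K2, hK2⟩ := ftp_cross 4
  refine ⟨max K1 K2, ?_⟩
  intro w w' g g' hw hw' hgg t
  have case1 : ∀ κ : KK, |κ.v.1| ≤ 4 → |κ.v.2| ≤ 4 → g' = g * of κ → dG (pt w t) (pt w' t) ≤ max K1 K2 := by
    intro κ h1 h2 h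
    exact le_trans (hK1 w w' g g' hw hw' ⟨κ, h, by exact_mod_cast h1, by exact_mod_cast h2⟩ t) (le_max_left _ _)
  have case2 : ∀ (κ₁ κ₂ : KK) (s : ℤˣ), |κ₁.v.1| ≤ 4 → |κ₁.v.2| ≤ 4 → |κ₂.v.1| ≤ 4 → |κ₂.v.2| ≤ 4 →
      g' = g * of κ₁ * te s * of κ₂ → dG (pt w t) (pt w' t) ≤ max K1 K2 := by
    intro κ₁ κ₂ s h1 h2 h3 h4 h
    exact le_trans (hK2 w w' g g' hw hw' ⟨κ₁, κ₂, s, h, by exact_mod_cast h1, by exact_mod_cast h2,
      by exact_mod_cast h3, by exact_mod_cast h4⟩ t) (le_max_right _ _)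
  rcases hgg with rfl | ⟨x, hx, hgx⟩
  · exact case1 1 (by simp) (by simp) (by simp)
  · rcases XB_form x hx with ⟨r, a, h1, h2, rfl⟩ | ⟨r, a, e, h1, h2, rfl⟩
    · rcases hgx with h | h
      · exact case1 ⟨r, a⟩ h1 h2 h
      · have b := abs_rot_le 4 (-a) (-r) (by simpa using h1) (by simpa using h2)
        exact case1 (⟨r, a⟩⁻¹) b.1 b.2 (by rw [h, map_inv])
    · rcases hgx with h | h
      · exact case2 ⟨r, a⟩ 1 e h1 h2 (by simp) (by simp) (by rw [h, map_one, mul_one, mul_assoc])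
      · have b := abs_rot_le 4 (-a) (-r) (by simpa using h1) (by simpa using h2)
        refine case2 1 (⟨r, a⟩⁻¹) (-e) (by simp) (by simp) b.1 b.2 ?_
        rw [h, map_one, mul_one, te_neg, map_inv, mul_inv_rev]
        group

/-- letters and product of accepted words -/
theorem frun_mem {w : List GG} {g : GG} (h : FRun w g) : (∀ x ∈ w, x ∈ XB) ∧ w.prod = g := by
  obtain ⟨w1, h, b, e, R, k, r, a, hL, hr1, hr2, rfl, rfl⟩ := h
  constructor
  · intro x hx
    rw [List.mem_append, List.mem_append] at hx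
    rcases hx with (hx | hx) | hx
    · exact lrun_mem hL x hx
    · exact rayW_mem e k x hx
    · rw [List.mem_singleton] at hx
      subst hx
      apply of_mem_XB
      · rcases Int.units_eq_one_or e with rfl | rfl
        · simp only [sig, del, DD, if_true] at hr1 hr2
          rw [abs_le] at hr1 hr2 ⊢
          constructor <;> omega
        · have h1 : ¬ ((-1 : ℤˣ) = 1) := by decide
          simp only [sig, del, DD, h1, if_false] at hr1 hr2
          linarith
      · rcases Int.units_eq_one_or e with rfl | rfl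
        · simp only [sig, del, DD, if_true] at hr1 hr2
          rw [abs_le] at hr1 hr2 ⊢
          constructor <;> omega
        · have h1 : ¬ ((-1 : ℤˣ) = 1) := by decide
          simp only [sig, del, DD, h1, if_false] at hr1 hr2
          linarith
  · rw [List.prod_append, List.prod_append, lrun_prod hL, rayW_prod, List.prod_singleton]
    have : (⟨k • rayv e + r, a⟩ : KK) = vec (k • rayv e) * ⟨r, a⟩ := by
      ext1
      · simp [rot_zero]
      · simp
    rw [this, map_mul, mul_assoc]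

end AutGeo
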