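import Pool.Agent.AutGeo.B.BDefs

set_option autoImplicit false

namespace AutGeo

/-- `|k|` copies of the block `f (sign k)` -/
private def blkW (f : ℤ → List GG) (k : ℤ) : List GG :=
  (List.replicate k.natAbs (f k.sign)).flatten

private lemma blkW_zero (f : ℤ → List GG) : blkW f 0 = [] := by simp [blkW]

private lemma blkW_succ (f : ℤ → List GG) (k : ℤ) (hk : 0 ≤ k) :
    blkW f (k + 1) = blkW f k ++ f 1 := by
  unfold blkW
  have h1 : (k + 1).natAbs = k.natAbs + 1 := by omega
  have h2 : (k + 1).sign = 1 := Int.sign_eq_one_of_pos (by omega)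
  rw [h1, h2, List.replicate_succ', List.flatten_append, List.flatten_singleton]
  rcases hk.eq_or_lt with h | h
  · rw [← h]; simp
  · rw [Int.sign_eq_one_of_pos h]

private lemma blkW_pred (f : ℤ → List GG) (k : ℤ) (hk : k ≤ 0) :
    blkW f (k - 1) = blkW f k ++ f (-1) := by
  unfold blkW
  have h1 : (k - 1).natAbs = k.natAbs + 1 := by omega
  have h2 : (k - 1).sign = -1 := Int.sign_eq_neg_one_of_neg (by omega)
  rw [h1, h2, List.replicate_succ', List.flatten_append, List.flatten_singleton]
  rcases hk.eq_or_lt with h | h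
  · rw [h]; simp
  · rw [Int.sign_eq_neg_one_of_neg h]

private noncomputable def fS (s : ℤ) : List GG := of (vec (s • (2, 2))) :: List.replicate 11 1

private noncomputable def fR (e : ℤˣ) (s : ℤ) : List GG :=
  of (vec (s • rayv e)) :: List.replicate (rayc e - 1) 1

private lemma startW_eq (k : ℤ) : startW k = blkW fS k ++ [1] := rfl

private lemma rayW_eq (e : ℤˣ) (k : ℤ) : rayW e k = blkW (fR e) k := rfl

private lemma of_succ (v : ℤ × ℤ) (k : ℤ) :
    of (vec ((k + 1) • v)) = of (vec (k • v)) * of (vec v) := by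
  rw [← map_mul, vec_mul, add_smul, one_smul]

private lemma of_pred (v : ℤ × ℤ) (k : ℤ) :
    of (vec ((k - 1) • v)) = of (vec (k • v)) * of (vec (-v)) := by
  rw [← map_mul, vec_mul, sub_smul, one_smul, sub_eq_add_neg]

private lemma of_zero (v : ℤ × ℤ) : of (vec ((0 : ℤ) • v)) = 1 := by
  rw [zero_smul, vec_zero, map_one]

private lemma of_cross (v r : ℤ × ℤ) (a : ZMod 4) :
    of (vec v) * of (⟨r, a⟩ : KK) = of (⟨v + r, a⟩ : KK) := by
  rw [← map_mul]
  congr 1
  ext1
  · simp [rot_zero]
  · simp

private lemma run_start (k : ℤ) :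
    Run Step (Node.start 0) (blkW fS k) (of (vec (k • (2, 2)))) (Node.start k) := by
  induction k using Int.induction_on with
  | zero =>
    rw [blkW_zero, of_zero]
    exact Run.nil
  | succ i ih =>
    rw [blkW_succ _ _ (by omega), of_succ]
    have h := Run.step _ _ _ ih (Step.sp (i : ℤ) (by omega))
    simpa [fS] using h
  | pred i ih =>
    rw [blkW_pred _ _ (by omega), of_pred]
    have h := Run.step _ _ _ ih (Step.sm (-(i : ℤ)) (by omega))
    simpa [fS] using h

private lemma run_ray (w : List GG) (g : GG) (b : Bool) (e : ℤˣ) (R : RF)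
    (hw : Run Step (Node.start 0) w g (Node.ray b e R 0)) (k : ℤ) :
    Run Step (Node.start 0) (w ++ rayW e k) (g * of (vec (k • rayv e))) (Node.ray b e R k) := by
  rw [rayW_eq]
  induction k using Int.induction_on with
  | zero =>
    rw [blkW_zero, of_zero, List.append_nil, mul_one]
    exact hw
  | succ i ih =>
    rw [blkW_succ _ _ (by omega), of_succ, ← List.append_assoc, ← mul_assoc]
    have h := Run.step _ _ _ ih (Step.rp b e R (i : ℤ) (by omega))
    simpa [fR] using h
  | pred i ih =>
    rw [blkW_pred _ _ (by omega), of_pred, ← List.append_assoc, ← mul_assoc]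
    have h := Run.step _ _ _ ih (Step.rm b e R (-(i : ℤ)) (by omega))
    simpa [fR] using h

private lemma run_lrun {w : List GG} {h : GG} {b : Bool} {e : ℤˣ} {R : RF} (H : LRun w h b e R) :
    Run Step (Node.start 0) w h (Node.ray b e R 0) := by
  induction H with
  | base k =>
    have h := Run.step _ _ _ (run_start k) (Step.enter k)
    rw [startW_eq]
    simpa using h
  | @step w h b e R k r a e' H hc ih =>
    have h1 := run_ray _ _ _ _ _ ih k
    have h2 := Run.step _ _ _ h1 (Step.cross b e R k r a e' hc)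
    rw [← mul_assoc, mul_assoc h, of_cross] at h2
    exact h2

/-- invariant of the runs -/
private def Inv (w : List GG) (g : GG) : Node → Prop
  | .start k => w = blkW fS k ∧ g = of (vec (k • (2, 2)))
  | .ray b e R k => ∃ (w1 : List GG) (h : GG), LRun w1 h b e R ∧ w = w1 ++ rayW e k ∧
      g = h * of (vec (k • rayv e))
  | .fin => FRun w g

private lemma inv_run {w : List GG} {g : GG} {n : Node} (H : Run Step (Node.start 0) w g n) :
    Inv w g n := by
  induction H with
  | nil => exact ⟨(blkW_zero _).symm, (of_zero _).symm⟩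
  | @step w g n s c m H hs ih =>
    cases hs with
    | sp k hk =>
      obtain ⟨rfl, rfl⟩ := ih
      refine ⟨?_, ?_⟩
      · rw [blkW_succ _ _ hk]; simp [fS]
      · rw [of_succ]
    | sm k hk =>
      obtain ⟨rfl, rfl⟩ := ih
      refine ⟨?_, ?_⟩
      · rw [blkW_pred _ _ hk]; simp [fS]
      · rw [of_pred]
    | enter k =>
      obtain ⟨rfl, rfl⟩ := ih
      refine ⟨startW k, of (vec (k • (2, 2))), LRun.base k, ?_, ?_⟩
      · rw [rayW_eq, blkW_zero, startW_eq]; simp
      · rw [of_zero]
    | rp b e R k hk =>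
      obtain ⟨w1, h, hL, rfl, rfl⟩ := ih
      refine ⟨w1, h, hL, ?_, ?_⟩
      · rw [rayW_eq, rayW_eq, blkW_succ _ _ hk]; simp [fR]
      · rw [of_succ, mul_assoc]
    | rm b e R k hk =>
      obtain ⟨w1, h, hL, rfl, rfl⟩ := ih
      refine ⟨w1, h, hL, ?_, ?_⟩
      · rw [rayW_eq, rayW_eq, blkW_pred _ _ hk]; simp [fR]
      · rw [of_pred, mul_assoc]
    | cross b e R k r a e' hc =>
      obtain ⟨w1, h, hL, rfl, rfl⟩ := ih
      refine ⟨_, _, LRun.step k r a e' hL hc, ?_, ?_⟩
      · rw [rayW_eq e' 0, blkW_zero, List.append_nil]; rfl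
      · rw [of_zero, mul_one, ← mul_assoc, mul_assoc h, of_cross]
    | last b e R k r a h1 h2 =>
      obtain ⟨w1, h, hL, rfl, rfl⟩ := ih
      refine ⟨w1, h, b, e, R, k, r, a, hL, h1, h2, ?_, ?_⟩
      · simp
      · rw [mul_assoc h, of_cross]

/-- The runs of the transition system are the structured runs. (→) `LRun w h b e R` gives a run
from `start 0` to `ray b e R 0` by induction (first line: `|k|` steps and `enter`; rays: `|k|`
steps). (←) induction on the run with the invariant `Inv`. -/
theorem frun_iff (w : List GG) (g : GG) : FRun w g ↔ Run Step (Node.start 0) w g Node.fin := by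
  constructor
  · rintro ⟨w1, h, b, e, R, k, r, a, hL, h1, h2, rfl, rfl⟩
    have h3 := run_ray _ _ _ _ _ (run_lrun hL) k
    have h4 := Run.step _ _ _ h3 (Step.last b e R k r a h1 h2)
    rw [mul_assoc h, of_cross] at h4
    simpa using h4
  · intro H
    exact inv_run H

end AutGeo
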