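import Pool.Agent.AutGeo.C.Auto
import Pool.Agent.AutGeo.G.WordLen

set_option autoImplicit false

namespace AutGeo

/-- PART B: the left side of the frozen statement for `GG` (by the simple combing of C/Auto). -/
theorem automatic : ∃ X : Finset GG, Subgroup.closure (X : Set GG) = ⊤ ∧
    ∃ σ : Type, ∃ _ : Fintype σ, ∃ M : DFA ({x // x ∈ X} × Bool) σ,
      (∀ g : GG, ∃ w : List ({x // x ∈ X} × Bool), M.eval w ∈ M.accept ∧ wval X w = g) ∧
      ∃ K : ℕ, ∀ u v : List ({x // x ∈ X} × Bool), M.eval u ∈ M.accept → M.eval v ∈ M.accept →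
        (∃ z : List ({x // x ∈ X} × Bool), z.length ≤ 1 ∧ wval X u * wval X z = wval X v) →
        ∀ t : ℕ, ∃ z : List ({x // x ∈ X} × Bool), z.length ≤ K ∧
          wval X (u.take t) * wval X z = wval X (v.take t) :=
  Cb.automatic

end AutGeo
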