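import Pool.Agent.AutGeo.B.BDefs

set_option autoImplicit false

namespace AutGeo

private lemma offset_rayc (e : ℤˣ) : (1 : ℤ) ≤ rayc e := by
  rcases Int.units_eq_one_or e with rfl | rfl <;> decide

private lemma offset_DD (e : ℤˣ) : DD e = 4 ∨ DD e = 3 := by
  rcases Int.units_eq_one_or e with rfl | rfl
  · exact Or.inl (by decide)
  · exact Or.inr (by decide)

private lemma offset_abs {a b c d m : ℤ} (h : a = b + c - d) (hm : |b| + |c| + |d| ≤ m) :
    |a| ≤ m := by
  rw [h]
  have h1 := abs_add_le (b + c) (-d)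
  have h2 := abs_add_le b c
  rw [abs_neg, ← sub_eq_add_neg] at h1
  omega

private lemma offset_k {c : ℕ} {k k' y z w : ℤ} (hc : (1 : ℤ) ≤ c)
    (h : k' * c + y = k * c + z + w) (hm : ℤ) (hb : |y| + |z| + |w| ≤ hm) : |k - k'| ≤ hm := by
  have h1 : (k - k') * c = y - z - w := by linarith
  have h2 : |(k - k') * c| ≤ hm := by
    rw [h1]
    rw [abs_le]
    have a1 := abs_le.1 (le_refl |y|)
    have a2 := abs_le.1 (le_refl |z|)
    have a3 := abs_le.1 (le_refl |w|)
    constructor <;> omega
  rw [abs_mul, abs_of_nonneg (show (0 : ℤ) ≤ c by omega)] at h2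
  nlinarith [abs_nonneg (k - k')]

/-- B4, offsets of the parents (integer arithmetic). `sig r' = sig r + i sig A - i₁ DD`,
`A = rot a (T e')`. Not parallel: `|i₁| DD ≤ 2 DD + |i| (3/4) DD`; parallel:
`0 ≤ sig r, sig r' < DD`, `sig A = ± DD`, so `i₁ = ± i`.
`del`: `k' rayc + del r' = k rayc + del r + i del A`, `|del A| ≤ 4`. -/
theorem parent_offset {b b' : Bool} {e : ℤˣ} {R R' : RF} {k k' : ℤ} {r r' : ℤ × ℤ} {a : ZMod 4}
    {e' : ℤˣ} {i i₁ : ℤ}
    (n0 : ℕ) (hn0 : 8 ≤ n0) (h1 : CrossOK b e R k r a e') (h2 : CrossOK b' e R' k' r' a e')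
    (hi : |i| ≤ n0)
    (h : k' • rayv e + r' = k • rayv e + r + i • rot a (T e') - i₁ • T' e) :
    |i₁| ≤ n0 ∧ |k - k'| ≤ 4 * n0 + 2 := by
  obtain ⟨s1, d1, -, p1, -, -⟩ := h1
  obtain ⟨s2, d2, -, p2, -, -⟩ := h2
  have hs := congrArg (sig e) h
  have hd := congrArg (del e) h
  rw [sig_sub, sig_add, sig_add, sig_add, sig_smul, sig_smul, sig_smul, sig_smul, sig_rayv,
    sig_T'] at hs
  rw [del_sub, del_add, del_add, del_add, del_smul, del_smul, del_smul, del_smul, del_rayv,
    del_T'] at hd
  have hD := DD_pos e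
  rcases exit_dir e a e' with ⟨hp, hA⟩ | ⟨hp, -, hA1, hA2⟩
  · have q1 := p1 hp
    have q2 := p2 hp
    have hA' : (sig e (rot a (T e')) = DD e ∨ sig e (rot a (T e')) = -DD e) ∧
        del e (rot a (T e')) = 0 := by
      rcases hA with ⟨-, hA⟩ | ⟨-, hA⟩
      · rw [hA, sig_T', del_T']
        exact ⟨Or.inl rfl, rfl⟩
      · have e1 := sig_smul e (-1) (T' e)
        have e2 := del_smul e (-1) (T' e)
        rw [neg_one_smul, sig_T'] at e1
        rw [neg_one_smul, del_T'] at e2
        rw [hA, e1, e2]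
        exact ⟨Or.inr (by ring), by ring⟩
    obtain ⟨hsA, hdA⟩ := hA'
    constructor
    · have hi1 : i₁ = i ∨ i₁ = -i := by
        rcases hsA with hsA | hsA
        · left
          rw [hsA] at hs
          have h3 : (i - i₁) * DD e = sig e r' - sig e r := by linarith
          have h4 : -DD e < (i - i₁) * DD e := by omega
          have h5 : (i - i₁) * DD e < DD e := by omega
          have h6 : -1 < i - i₁ := by nlinarith
          have h7 : i - i₁ < 1 := by nlinarith
          omega
        · right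
          rw [hsA] at hs
          have h3 : (-i - i₁) * DD e = sig e r' - sig e r := by linarith
          have h4 : -DD e < (-i - i₁) * DD e := by omega
          have h5 : (-i - i₁) * DD e < DD e := by omega
          have h6 : -1 < -i - i₁ := by nlinarith
          have h7 : -i - i₁ < 1 := by nlinarith
          omega
      rcases hi1 with rfl | rfl
      · exact hi
      · rwa [abs_neg]
    · rw [hdA] at hd
      have h3 : k' * (rayc e : ℤ) + del e r' = k * (rayc e : ℤ) + del e r + 0 := by linarith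
      have h4 := offset_k (offset_rayc e) h3 (4 * n0 + 2) (by
        rw [abs_zero]
        omega)
      exact h4
  · have hiA : |i * sig e (rot a (T e'))| = |i| * |sig e (rot a (T e'))| := abs_mul _ _
    have hiA2 : |i * del e (rot a (T e'))| = |i| * |del e (rot a (T e'))| := abs_mul _ _
    have hi0 := abs_nonneg i
    constructor
    · have h3 : i₁ * DD e = sig e r + i * sig e (rot a (T e')) - sig e r' := by linarith
      have h4 := offset_abs h3 (m := 2 * DD e + |i| * |sig e (rot a (T e'))|) (by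
        rw [hiA]; omega)
      rw [abs_mul, abs_of_pos hD] at h4
      have h5 : |i| * (4 * |sig e (rot a (T e'))|) ≤ |i| * (3 * DD e) :=
        mul_le_mul_of_nonneg_left hA1 hi0
      have h6 : 4 * |i₁| * DD e ≤ (8 + 3 * |i|) * DD e := by nlinarith
      have h7 : 4 * |i₁| ≤ 8 + 3 * |i| := le_of_mul_le_mul_right h6 hD
      omega
    · have h3 : k' * (rayc e : ℤ) + del e r' = k * (rayc e : ℤ) + del e r +
          i * del e (rot a (T e')) := by linarith
      have h5 : |i| * |del e (rot a (T e'))| ≤ |i| * 4 := mul_le_mul_of_nonneg_left hA2 hi0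
      exact offset_k (offset_rayc e) h3 (4 * n0 + 2) (by
        rw [hiA2]; omega)

/-- the same for final segments: two elements of the same plane at bounded distance -/
theorem final_offset {e : ℤˣ} {k k' : ℤ} {r r' x : ℤ × ℤ} {i₁ : ℤ} (n2 : ℕ)
    (h1 : |sig e r| ≤ DD e) (h1' : |del e r| ≤ 1) (h2 : |sig e r'| ≤ DD e) (h2' : |del e r'| ≤ 1)
    (hx1 : |x.1| ≤ n2) (hx2 : |x.2| ≤ n2)
    (h : k' • rayv e + r' = k • rayv e + r + x - i₁ • T' e) :
    |i₁| ≤ 2 * n2 + 8 ∧ |k - k'| ≤ 2 * n2 + 8 := by
  have hs := congrArg (sig e) h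
  have hd := congrArg (del e) h
  rw [sig_sub, sig_add, sig_add, sig_add, sig_smul, sig_smul, sig_smul, sig_rayv, sig_T'] at hs
  rw [del_sub, del_add, del_add, del_add, del_smul, del_smul, del_smul, del_rayv, del_T'] at hd
  have hsx : |sig e x| ≤ 2 * n2 := by
    have a1 := abs_le.1 hx1
    have a2 := abs_le.1 hx2
    rw [abs_le]
    unfold sig
    split_ifs <;> constructor <;> omega
  have hdx : |del e x| ≤ 2 * n2 := by
    have a1 := abs_le.1 hx1
    have a2 := abs_le.1 hx2
    rw [abs_le]
    unfold del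
    split_ifs <;> constructor <;> omega
  constructor
  · have h3 : i₁ * DD e = sig e r + sig e x - sig e r' := by linarith
    have h4 := offset_abs h3 (m := 2 * DD e + 2 * n2) (by omega)
    rw [abs_mul, abs_of_pos (DD_pos e)] at h4
    rcases offset_DD e with hD | hD <;> rw [hD] at h4 <;> omega
  · have h3 : k' * (rayc e : ℤ) + del e r' = k * (rayc e : ℤ) + del e r + del e x := by linarith
    have h4 := offset_k (offset_rayc e) h3 (2 * n2 + 2) (by omega)
    omega

end AutGeo
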