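import Pool.Agent.AutGeo.B.DistRun

set_option autoImplicit false

namespace AutGeo

private lemma take_block (x : GG) (t : ℕ) :
    (List.take t (x :: List.replicate 11 (1 : GG))).prod = x ^ (min 1 t) := by
  cases t with
  | zero => simp
  | succ t =>
    rw [List.take_succ_cons, List.prod_cons, List.take_replicate, List.prod_replicate, one_pow,
      mul_one, min_eq_left (by omega), pow_one]

private lemma take_blocks (x : GG) (n : ℕ) : ∀ t : ℕ,
    (List.take t ((List.replicate n (x :: List.replicate 11 (1 : GG))).flatten ++ [1])).prod =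
      x ^ (min n ((t + 11) / 12)) := by
  induction n with
  | zero =>
    intro t
    cases t with
    | zero => simp
    | succ t => simp
  | succ n ih =>
    intro t
    have hlen : (x :: List.replicate 11 (1 : GG)).length = 12 := by simp
    rw [List.replicate_succ, List.flatten_cons, List.append_assoc, List.take_append,
      List.prod_append, hlen, ih, take_block, ← pow_add]
    congr 1
    omega

private lemma vec_pow (x : ℤ × ℤ) : ∀ n : ℕ, of (vec x) ^ n = of (vec ((n : ℤ) • x))
  | 0 => by simp [vec_zero]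
  | (n + 1) => by
    rw [pow_succ, vec_pow x n, ← map_mul, vec_mul]
    congr 2
    push_cast
    rw [add_smul, one_smul]

private lemma pt_start (k : ℤ) (t : ℕ) :
    pt (startW k) t =
      of (vec ((k.sign * ((min k.natAbs ((t + 11) / 12) : ℕ) : ℤ)) • ((2, 2) : ℤ × ℤ))) := by
  rw [pt, startW, take_blocks, vec_pow, smul_smul, mul_comm]

/-- the first line: after `t` letters of `startW k` one is at `of (vec ((k.sign * κ) • (2,2)))`, `κ = min |k| ⌈t/12⌉` -/
theorem start_ftp (n0 : ℕ) : ∃ K : ℕ, ∀ k k' : ℤ, |k - k'| ≤ n0 → ∀ t, dG (pt (startW k) t) (pt (startW k') t) ≤ K := by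
  refine ⟨4 * n0 + 1, ?_⟩
  intro k k' hk t
  rw [pt_start, pt_start]
  obtain ⟨a, ha⟩ : ∃ a : ℤ, a = k.sign * ((min k.natAbs ((t + 11) / 12) : ℕ) : ℤ) := ⟨_, rfl⟩
  obtain ⟨b, hb⟩ : ∃ b : ℤ, b = k'.sign * ((min k'.natAbs ((t + 11) / 12) : ℕ) : ℤ) := ⟨_, rfl⟩
  rw [← ha, ← hb]
  have hab : |b - a| ≤ n0 := by
    rw [abs_le] at hk ⊢
    rcases lt_trichotomy k 0 with h | h | h
    · rw [Int.sign_eq_neg_one_of_neg h] at ha
      rcases lt_trichotomy k' 0 with h' | h' | h'
      · rw [Int.sign_eq_neg_one_of_neg h'] at hb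
        omega
      · rw [h', Int.sign_zero] at hb
        omega
      · rw [Int.sign_eq_one_of_pos h'] at hb
        omega
    · rw [h, Int.sign_zero] at ha
      rcases lt_trichotomy k' 0 with h' | h' | h'
      · rw [Int.sign_eq_neg_one_of_neg h'] at hb
        omega
      · rw [h', Int.sign_zero] at hb
        omega
      · rw [Int.sign_eq_one_of_pos h'] at hb
        omega
    · rw [Int.sign_eq_one_of_pos h] at ha
      rcases lt_trichotomy k' 0 with h' | h' | h'
      · rw [Int.sign_eq_neg_one_of_neg h'] at hb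
        omega
      · rw [h', Int.sign_zero] at hb
        omega
      · rw [Int.sign_eq_one_of_pos h'] at hb
        omega
  have hmul : of (vec (b • ((2, 2) : ℤ × ℤ))) =
      of (vec (a • ((2, 2) : ℤ × ℤ))) * of (vec ((b - a) • ((2, 2) : ℤ × ℤ))) := by
    rw [← map_mul, vec_mul, ← add_smul, add_sub_cancel]
  rw [hmul]
  refine (dG_of _ _).trans ?_
  have h1 : (vec ((b - a) • ((2, 2) : ℤ × ℤ))).v = ((b - a) * 2, (b - a) * 2) := rfl
  rw [h1]
  simp only
  rw [abs_mul, abs_of_pos (show (0 : ℤ) < 2 by norm_num)]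
  omega

end AutGeo
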