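import Pool.Agent.AutGeo.B.Seg
import Pool.Agent.AutGeo.B.StartFTP
import Pool.Agent.AutGeo.B.Offset

set_option autoImplicit false

namespace AutGeo

/-- B4: two line runs to positions at distance `≤ n0` of the same line fellow travel. Induction on the first run with `K := max K₀ K₂` (`start_ftp n0`, `seg n0 (4 n0 + 20)`). Base: by `lrun_compare` (`b' = b = true`) and `lrun_red` the second run is `startW k'`, `|k - k'| = |i|`.
Step: the second run is a step (`b' = false`); as in `lrun_compare`: same `e'`, `a`, parents on one line with offset `i₁` and `k' • rayv + r' = k • rayv + r + i A - i₁ B`; `parent_offset`: `|i₁| ≤ n0`; `seg` with `s = crossW ..`. -/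
theorem line_ftp (n0 : ℕ) (hn0 : 8 ≤ n0) : ∃ K : ℕ, ∀ (w w' : List GG) (h h' : GG) (b b' : Bool) (e e' : ℤˣ)
    (R R' : RF) (i : ℤ), LRun w h b e R → LRun w' h' b' e' R' → h' = h * of (vec (i • T' e)) → |i| ≤ n0 →
    ∀ t, dG (pt w t) (pt w' t) ≤ K := by
  obtain ⟨K0, hK0⟩ := start_ftp n0
  obtain ⟨K2, hK2⟩ := seg n0 (4 * n0 + 20)
  refine ⟨max K0 K2, ?_⟩
  intro w w' h h' b b' e e' R R' i h1
  induction h1 generalizing w' h' b' e' R' i with
  | base k =>
    intro h2 hh hi t
    obtain ⟨hb, -, -⟩ := lrun_compare (LRun.base k) h2 _ hh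
    obtain ⟨-, k', rfl, hk', -⟩ := (lrun_red h2).2 hb
    refine le_trans (hK0 k k' ?_ t) (le_max_left _ _)
    rw [hk', ← map_mul, vec_mul] at hh
    have h3 := congrArg KK.v (HNNExtension.of_injective phi hh)
    simp only [vec_v, T'_one] at h3
    have h4 := congrArg Prod.fst h3
    simp only [Prod.fst_add, Prod.smul_fst, smul_eq_mul] at h4
    have h5 : k - k' = -i := by omega
    rw [h5, abs_neg]
    exact hi
  | @step w1 h1 b1 e1 R1 k r a e2 hr hok ih =>
    intro h2 hh hi t
    obtain ⟨hb, he, -⟩ := lrun_compare (LRun.step k r a e2 hr hok) h2 _ hh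
    subst he
    cases h2 with
    | base k' => exact absurd hb (by decide)
    | @step w1' h1' b1' e1' R1' k' r' a' e2' hr' hok' =>
      have hp := prev_plane hh
      obtain ⟨-, he1, i1, hi1, -⟩ := lrun_compare hr hr' _ hp
      subst he1
      rw [hi1] at hp
      have h5 : (⟨k • rayv e1' + r + i • rot a (T e'), a⟩ : KK) =
          vec (i1 • T' e1') * ⟨k' • rayv e1' + r', a'⟩ := by
        rw [← hi1]; group
      have h6 := congrArg KK.v h5
      have h7 := congrArg KK.a h5
      simp only [KK.mul_v, KK.mul_a, vec_v, vec_a, rot_zero, zero_add] at h6 h7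
      subst h7
      have h8 : k' • rayv e1' + r' = k • rayv e1' + r + i • rot a (T e') - i1 • T' e1' := by
        rw [h6]; abel
      obtain ⟨hi1', hkk⟩ := parent_offset n0 hn0 hok hok' hi h8
      have hc1 := crossW_length e1' r a e' hok.1 hok.2.1
      have hc2 := crossW_length e1' r' a e' hok'.1 hok'.2.1
      have h9 := hK2 w1 w1' h1 h1' b1 b1' e1' e1' R1 R1' i1 k k' (crossW e1' r a e')
        (crossW e1' r' a e') (max K0 K2) hr hr' hp hi1' (by push_cast; omega)
        (by rw [hc1.1]; omega) (by rw [hc2.1]; omega) (crossW_mem _ _ _ _ hok.1 hok.2.1)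
        (crossW_mem _ _ _ _ hok'.1 hok'.2.1) (ih w1' h1' b1' e1' R1' i1 hr' hp hi1') t
      exact h9.trans (by simp)

end AutGeo
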