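import Pool.Agent.AutGeo.B.DistRun
import Pool.Agent.AutGeo.B.Compare

set_option autoImplicit false

namespace AutGeo

private lemma seg_pt (w r s : List GG) (t : ℕ) :
    pt (w ++ r ++ s) t =
      pt w t * pt r (t - w.length) * pt s (t - w.length - r.length) := by
  rw [pt, pt, pt, pt, List.take_append, List.take_append, List.prod_append, List.prod_append,
    List.length_append, Nat.sub_sub]

private lemma seg_one (n0 n1 : ℕ) {w1 : List GG} {h : GG} {b : Bool} {e : ℤˣ} {R : RF}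
    (hr : LRun w1 h b e R) (k : ℤ) (s : List GG) (hs : s.length ≤ n1) (hsX : ∀ x ∈ s, x ∈ XB)
    (t : ℕ) (ht : w1.length ≤ t + 12 * n0) :
    ∃ κ : ℕ, κ ≤ k.natAbs ∧ min (t - w1.length) (k.natAbs * rayc e) ≤ κ * rayc e ∧
      κ * rayc e ≤ min (t - w1.length) (k.natAbs * rayc e) + 1 ∧
      dG (h * of (vec ((k.sign * κ) • rayv e))) (pt (w1 ++ rayW e k ++ s) t) ≤ n1 + 12 * n0 := by
  obtain ⟨κ, h1, h2, h3, h4⟩ := ray_point e k (t - w1.length)
  refine ⟨κ, h1, h3, h4, ?_⟩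
  rw [seg_pt]
  have h5 : dG (h * pt (rayW e k) (t - w1.length))
      (pt w1 t * pt (rayW e k) (t - w1.length)) ≤ 12 * n0 := by
    rcases le_total w1.length t with hle | hle
    · have h6 : pt w1 t = h := by
        rw [pt, List.take_of_length_le hle, lrun_prod hr]
      rw [h6, dG_self]
      exact Nat.zero_le _
    · have h6 : pt (rayW e k) (t - w1.length) = 1 := by
        rw [Nat.sub_eq_zero_of_le hle, pt, List.take_zero, List.prod_nil]
      have h7 : h = pt w1 w1.length := by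
        rw [pt, List.take_length, lrun_prod hr]
      rw [h6, mul_one, mul_one, dG_comm, h7]
      exact (pt_lip w1 (lrun_mem hr) t w1.length hle).trans (by omega)
  have h6 : dG (pt w1 t * pt (rayW e k) (t - w1.length))
      (pt w1 t * pt (rayW e k) (t - w1.length) *
        pt s (t - w1.length - (rayW e k).length)) ≤ n1 := by
    rw [pt, pt, pt]
    refine (dG_mul_list _ _ fun x hx => hsX x (List.mem_of_mem_take hx)).trans ?_
    rw [List.length_take]
    exact (min_le_right _ _).trans hs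
  rw [← h2]
  exact (dG_tri _ (pt w1 t * pt (rayW e k) (t - w1.length)) _).trans (by omega)

private lemma seg_arith (c n0 n1 : ℕ) (hc : 1 ≤ c) (hc2 : c ≤ 2) (k k' : ℤ)
    (κ κ' t1 t1' : ℕ) (h1 : κ ≤ k.natAbs) (h2 : min t1 (k.natAbs * c) ≤ κ * c)
    (h3 : κ * c ≤ min t1 (k.natAbs * c) + 1) (h1' : κ' ≤ k'.natAbs)
    (h2' : min t1' (k'.natAbs * c) ≤ κ' * c) (h3' : κ' * c ≤ min t1' (k'.natAbs * c) + 1)
    (hk : |k - k'| ≤ n1) (ht : t1 ≤ t1' + 12 * n0) (ht' : t1' ≤ t1 + 12 * n0) :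
    |k.sign * κ - k'.sign * κ'| ≤ 12 * n0 + 2 * n1 + 1 := by
  have hc3 : c = 1 ∨ c = 2 := by omega
  rw [abs_le] at hk ⊢
  rcases lt_trichotomy k 0 with hk0 | hk0 | hk0 <;>
    rcases lt_trichotomy k' 0 with hk1 | hk1 | hk1
  all_goals
    first
      | rw [Int.sign_eq_neg_one_of_neg hk0]
      | rw [Int.sign_eq_one_of_pos hk0]
      | rw [Int.sign_eq_zero_iff_zero.2 hk0]
  all_goals
    first
      | rw [Int.sign_eq_neg_one_of_neg hk1]
      | rw [Int.sign_eq_one_of_pos hk1]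
      | rw [Int.sign_eq_zero_iff_zero.2 hk1]
  all_goals
    rcases hc3 with rfl | rfl <;> omega

private lemma seg_dir (e : ℤˣ) (i z z' : ℤ) (n0 m : ℕ) (hi : |i| ≤ n0) (hz : |z - z'| ≤ m)
    (h : GG) :
    dG (h * of (vec (z • rayv e))) (h * of (vec (i • T' e)) * of (vec (z' • rayv e))) ≤
      4 * n0 + 2 * m + 1 := by
  have h1 : h * of (vec (i • T' e)) * of (vec (z' • rayv e)) =
      h * of (vec (z • rayv e)) * of (vec (i • T' e + (z' - z) • rayv e)) := by
    rw [mul_assoc, mul_assoc, ← map_mul, ← map_mul, vec_mul, vec_mul]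
    congr 3
    rw [sub_smul]
    abel
  rw [h1]
  refine (dG_of _ _).trans ?_
  rw [vec_v]
  rw [abs_le] at hi hz
  rcases Int.units_eq_one_or e with rfl | rfl
  · have e1 : T' 1 = (2, 2) := by decide
    have e2 : rayv 1 = (1, -1) := by decide
    rw [e1, e2]
    simp only [Prod.smul_mk, Prod.mk_add_mk, smul_eq_mul]
    rcases abs_cases (i * 2 + (z' - z) * 1) with ⟨h3, -⟩ | ⟨h3, -⟩ <;>
      rcases abs_cases (i * 2 + (z' - z) * -1) with ⟨h4, -⟩ | ⟨h4, -⟩ <;>
      rw [h3, h4] <;> omega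
  · have e1 : T' (-1) = (3, 0) := by decide
    have e2 : rayv (-1) = (0, 1) := by decide
    rw [e1, e2]
    simp only [Prod.smul_mk, Prod.mk_add_mk, smul_eq_mul]
    rcases abs_cases (i * 3 + (z' - z) * 0) with ⟨h3, -⟩ | ⟨h3, -⟩ <;>
      rcases abs_cases (i * 0 + (z' - z) * 1) with ⟨h4, -⟩ | ⟨h4, -⟩ <;>
      rw [h3, h4] <;> omega

/-- B4, the segment lemma. Proof: `lrun_compare`: `e' = e`, `R' j = R (i + j)`; `lrun_length`: the lengths of `w1`, `w1'` differ by at most `12 n0`.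
For `t ≤ min` of the lengths use the hypothesis. Otherwise: if `t ≤ |w1|` (so `t > |w1'|`, `|w1| - t ≤ 12 n0`) the first point is `12 n0`-close to `h` (`pt_lip`, `lrun_prod`), and the second is `h' * (ray point with κ ≤ 12 n0 + 1) * (≤ n1 letters)`; `h, h'` are `5 n0`-close.
If `t` is larger than both lengths: the points are `h * of (vec (sign k * κ • rayv)) * (≤ n1 letters)`, `h' * of (vec (sign k' * κ' • rayv)) * (≤ n1 letters)` by `ray_point`, with `κ rayc ≈ min (t - |w1|) (|k| rayc)`, `κ' rayc ≈ min (t - |w1'|) (|k'| rayc)`: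
`|sign k κ - sign k' κ'| ≤ |k - k'| + 12 n0 + 2` (same sign: min is Lipschitz; different signs: `κ + κ' ≤ |k| + |k'| = |k - k'|`), and then `dG_of`. -/
theorem seg (n0 n1 : ℕ) : ∃ K2 : ℕ, ∀ (w1 w1' : List GG) (h h' : GG) (b b' : Bool) (e e' : ℤˣ) (R R' : RF)
    (i k k' : ℤ) (s s' : List GG) (K1 : ℕ),
    LRun w1 h b e R → LRun w1' h' b' e' R' → h' = h * of (vec (i • T' e)) → |i| ≤ n0 → |k - k'| ≤ n1 →
    s.length ≤ n1 → s'.length ≤ n1 → (∀ x ∈ s, x ∈ XB) → (∀ x ∈ s', x ∈ XB) →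
    (∀ t, dG (pt w1 t) (pt w1' t) ≤ K1) →
    ∀ t, dG (pt (w1 ++ rayW e k ++ s) t) (pt (w1' ++ rayW e' k' ++ s') t) ≤ max K1 K2 := by
  refine ⟨100 * n0 + 100 * n1 + 100, ?_⟩
  intro w1 w1' h h' b b' e e' R R' i k k' s s' K1 hr hr' hh hi hk hs hs' hsX hsX' hK t
  obtain ⟨-, he, i0, hi0, hR⟩ := lrun_compare hr hr' (vec (i • T' e)) hh
  subst he
  have hii : i = i0 := by
    have h1 := congrArg (sig e') (congrArg KK.v hi0)
    rw [vec_v, vec_v, sig_smul, sig_smul, sig_T'] at h1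
    exact mul_right_cancel₀ (DD_pos e').ne' h1
  subst hii
  have hl := lrun_length hr
  have hl' := lrun_length hr'
  have hR0 := hR 0
  have hLip := R.2 (i + 0) 0
  rw [← hR0, add_zero, sub_zero] at hLip
  have hdiff : |R'.1 0 - R.1 0| ≤ 12 * n0 := by linarith
  rw [abs_le] at hdiff
  have hd1 : w1.length ≤ w1'.length + 12 * n0 := by omega
  have hd2 : w1'.length ≤ w1.length + 12 * n0 := by omega
  by_cases hcase : t ≤ w1.length ∧ t ≤ w1'.length
  · refine le_trans ?_ (le_max_left _ _)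
    rw [seg_pt, seg_pt, Nat.sub_eq_zero_of_le hcase.1, Nat.sub_eq_zero_of_le hcase.2]
    simp only [Nat.zero_sub]
    have h0 : ∀ l : List GG, pt l 0 = 1 := fun l => by rw [pt, List.take_zero, List.prod_nil]
    rw [h0, h0, h0, h0, mul_one, mul_one, mul_one, mul_one]
    exact hK t
  · refine le_trans ?_ (le_max_right _ _)
    obtain ⟨κ, a1, a2, a3, a4⟩ := seg_one n0 n1 hr k s hs hsX t (by omega)
    obtain ⟨κ', c1, c2, c3, c4⟩ := seg_one n0 n1 hr' k' s' hs' hsX' t (by omega)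
    have hc : 1 ≤ rayc e' ∧ rayc e' ≤ 2 := by
      rcases Int.units_eq_one_or e' with rfl | rfl <;> decide
    have hz := seg_arith (rayc e') n0 n1 hc.1 hc.2 k k' κ κ' (t - w1.length) (t - w1'.length)
      a1 a2 a3 c1 c2 c3 hk (by omega) (by omega)
    have hz2 : |k.sign * κ - k'.sign * κ'| ≤ ((12 * n0 + 2 * n1 + 1 : ℕ) : ℤ) := by
      push_cast; exact hz
    have h5 := seg_dir e' i _ _ n0 _ hi hz2 h
    rw [← hh] at h5
    rw [dG_comm] at a4
    have h6 := dG_tri (pt (w1 ++ rayW e' k ++ s) t) (h * of (vec ((k.sign * κ) • rayv e')))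
      (h' * of (vec ((k'.sign * κ') • rayv e')))
    have h7 := dG_tri (pt (w1 ++ rayW e' k ++ s) t) (h' * of (vec ((k'.sign * κ') • rayv e')))
      (pt (w1' ++ rayW e' k' ++ s') t)
    omega

end AutGeo
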