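import Pool.Agent.AutGeo.B.BDefs
import Pool.Agent.AutGeo.G.Britton

set_option autoImplicit false

namespace AutGeo

/-- the crossing condition implies reducedness: if `⟨k•rayv e + r, a⟩ = vec (j • T' e)` and
`e' = -e` then `a = 0`, parallel, so `0 ≤ sig r < DD` and `sig r = j DD`, `j = 0`. -/
theorem crossOK_red {e : ℤˣ} {R : RF} {k : ℤ} {r : ℤ × ℤ} {a : ZMod 4} {e' : ℤˣ}
    (h : CrossOK false e R k r a e') :
    ¬ (e' = -e ∧ ∃ j : ℤ, (⟨k • rayv e + r, a⟩ : KK) = vec (j • T' e)) := by
  rintro ⟨he, j, hj⟩
  obtain ⟨-, -, -, h4, -, h6⟩ := h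
  have hv : k • rayv e + r = j • T' e := congrArg KK.v hj
  have ha : a = 0 := congrArg KK.a hj
  obtain ⟨h7, h8⟩ := h4 ⟨he, Or.inl ha⟩
  have hs := congrArg (sig e) hv
  rw [sig_add, sig_smul, sig_smul, sig_rayv, sig_T', mul_zero, zero_add] at hs
  have hD := DD_pos e
  have hj0 : j = 0 := by
    rw [hs] at h7 h8
    have h9 : 0 ≤ j := by
      by_contra hc
      have : j * DD e < 0 := mul_neg_of_neg_of_pos (by omega) hD
      omega
    by_contra hc
    have : DD e ≤ j * DD e := le_mul_of_one_le_left hD.le (by omega)
    omega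
  rw [hj0, zero_smul] at hv
  exact h6 ⟨rfl, hv, ha, he⟩

private lemma of_vec_mul (v r : ℤ × ℤ) (a : ZMod 4) :
    of (vec v) * of (⟨r, a⟩ : KK) = of (⟨v + r, a⟩ : KK) := by
  rw [← map_mul]
  congr 1
  ext1
  · simp [rot_zero]
  · simp

/-- elements of non-base line runs are `Red`, base runs are explicit -/
theorem lrun_red {w : List GG} {h : GG} {b : Bool} {e : ℤˣ} {R : RF} (hr : LRun w h b e R) :
    (b = false → Red h e) ∧
    (b = true → e = 1 ∧ ∃ k : ℤ, w = startW k ∧ h = of (vec (k • (2, 2))) ∧ R = R0 k) := by
  induction hr with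
  | base k => exact ⟨fun h => by simp at h, fun _ => ⟨rfl, k, rfl, rfl, rfl⟩⟩
  | @step w h b e R k r a e' H hc ih =>
    refine ⟨fun _ => ?_, fun h => by simp at h⟩
    rcases b with _ | _
    · exact Red.step _ e' (ih.1 rfl) (crossOK_red hc)
    · obtain ⟨-, k', -, hh, -⟩ := ih.2 rfl
      rw [hh, ← map_mul]
      exact Red.base _ e'

private lemma flat_length (n : ℕ) (l : List GG) :
    (List.replicate n l).flatten.length = n * l.length := by
  induction n with
  | zero => simp
  | succ n ih => rw [List.replicate_succ, List.flatten_cons, List.length_append, ih]; ring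

private lemma flat_prod (n : ℕ) (l : List GG) : (List.replicate n l).flatten.prod = l.prod ^ n := by
  induction n with
  | zero => simp
  | succ n ih => rw [List.replicate_succ, List.flatten_cons, List.prod_append, ih, pow_succ']

private lemma of_vec_pow (v : ℤ × ℤ) (n : ℕ) : of (vec v) ^ n = of (vec ((n : ℤ) • v)) := by
  induction n with
  | zero => rw [pow_zero, Nat.cast_zero, zero_smul, vec_zero, map_one]
  | succ n ih =>
    rw [pow_succ, ih, ← map_mul, vec_mul, Nat.cast_succ, add_smul, one_smul]

private lemma blk_prod (v : ℤ × ℤ) (m : ℕ) (k : ℤ) :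
    (List.replicate k.natAbs (of (vec (k.sign • v)) :: List.replicate m 1)).flatten.prod =
      of (vec (k • v)) := by
  rw [flat_prod, List.prod_cons, List.prod_replicate, one_pow, mul_one, of_vec_pow, smul_smul,
    mul_comm, Int.sign_mul_natAbs]

theorem rayW_prod (e : ℤˣ) (k : ℤ) : (rayW e k).prod = of (vec (k • rayv e)) :=
  blk_prod _ _ _

theorem rayW_length (e : ℤˣ) (k : ℤ) : (rayW e k).length = k.natAbs * rayc e := by
  unfold rayW
  rw [flat_length, List.length_cons, List.length_replicate]
  have : 1 ≤ rayc e := by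
    rcases Int.units_eq_one_or e with rfl | rfl <;> decide
  rw [Nat.sub_add_cancel this]

/-- length of the word = time -/
theorem lrun_length {w : List GG} {h : GG} {b : Bool} {e : ℤˣ} {R : RF} (hr : LRun w h b e R) :
    (w.length : ℤ) = R.1 0 + 1 := by
  induction hr with
  | base k =>
    unfold startW
    rw [List.length_append, flat_length, List.length_cons, List.length_replicate]
    simp [R0]
    ring
  | @step w h b e R k r a e' H hc ih =>
    obtain ⟨-, -, h3, h4, h5, -⟩ := hc
    rw [List.length_append, List.length_append, rayW_length]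
    have hcl : (crossW e r a e').length = crossc e r a e' := by
      unfold crossW
      rw [List.length_cons, List.length_replicate]
      unfold crossc
      omega
    rw [hcl]
    push_cast
    rw [ih]
    change _ = nextR e R.1 (k • rayv e + r) a e' 0 + 1
    unfold nextR crossc
    rw [zero_smul, add_zero, h3, sig_add, sig_smul, sig_rayv, mul_zero, zero_add]
    have hD := DD_pos e
    by_cases hp : IsPar e a e'
    · rw [if_pos hp]
      obtain ⟨h7, h8⟩ := h4 hp
      have hE : Ev e (IsPar e a e') R.1 (sig e r) = R.1 0 := by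
        unfold Ev
        rw [if_pos hp, Int.ediv_eq_zero_of_lt h7 h8]
      rw [hE]
      push_cast
      ring
    · rw [if_neg hp, h5 hp]
      have h9 : 0 ≤ chi e * |sig e r| := mul_nonneg (chi_pos e).le (abs_nonneg _)
      push_cast
      rw [Int.toNat_of_nonneg h9]
      ring

/-- product of the word = element -/
theorem lrun_prod {w : List GG} {h : GG} {b : Bool} {e : ℤˣ} {R : RF} (hr : LRun w h b e R) :
    w.prod = h := by
  induction hr with
  | base k =>
    unfold startW
    rw [List.prod_append, blk_prod]
    simp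
  | @step w h b e R k r a e' H hc ih =>
    rw [List.prod_append, List.prod_append, ih, rayW_prod]
    unfold crossW
    rw [List.prod_cons, List.prod_replicate, one_pow, mul_one, ← mul_assoc, mul_assoc h,
      of_vec_mul]

end AutGeo
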