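import Pool.Agent.AutGeo.B.BDefs

set_option autoImplicit false

namespace AutGeo

/-- every letter `of ⟨r, a⟩` with `|r.1|, |r.2| ≤ 4` is in `XB` -/
theorem of_mem_XB (r : ℤ × ℤ) (a : ZMod 4) (h1 : |r.1| ≤ 4) (h2 : |r.2| ≤ 4) : of ⟨r, a⟩ ∈ XB :=
  (mem_XB _).2 (Or.inl ⟨r, a, h1, h2, rfl⟩)

theorem one_mem_XB : (1 : GG) ∈ XB := by
  have h := of_mem_XB 0 0 (by norm_num) (by norm_num)
  have e : (⟨0, 0⟩ : KK) = 1 := rfl
  rwa [e, map_one] at h

theorem of_te_mem_XB (r : ℤ × ℤ) (a : ZMod 4) (e : ℤˣ) (h1 : |r.1| ≤ 4) (h2 : |r.2| ≤ 4) :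
    of ⟨r, a⟩ * te e ∈ XB :=
  (mem_XB _).2 (Or.inr ⟨r, a, e, h1, h2, rfl⟩)

/-- form of the letters -/
theorem XB_form (x : GG) (hx : x ∈ XB) :
    (∃ (r : ℤ × ℤ) (a : ZMod 4), |r.1| ≤ 4 ∧ |r.2| ≤ 4 ∧ x = of ⟨r, a⟩) ∨
    (∃ (r : ℤ × ℤ) (a : ZMod 4) (e : ℤˣ), |r.1| ≤ 4 ∧ |r.2| ≤ 4 ∧ x = of ⟨r, a⟩ * te e) :=
  (mem_XB x).1 hx

private lemma sm_coord (e : ℤˣ) (r : ℤ × ℤ) (h1 : |sig e r| ≤ DD e) (h2 : |del e r| ≤ 1) :
    |r.1| ≤ 4 ∧ |r.2| ≤ 4 := by
  rw [abs_le] at h1 h2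
  rw [abs_le, abs_le]
  rcases Int.units_eq_one_or e with rfl | rfl
  · simp only [sig, del, DD, if_true] at h1 h2
    omega
  · have h : ¬ ((-1 : ℤˣ) = 1) := by decide
    simp only [sig, del, DD, h, if_false] at h1 h2
    omega

theorem step_mem (n : Node) (s : GG) (c : ℕ) (m : Node) (h : Step n s c m) : s ∈ XB ∧ 1 ≤ c ∧ c ≤ 16 := by
  cases h with
  | sp k hk => exact ⟨of_mem_XB (2, 2) 0 (by norm_num) (by norm_num), by norm_num, by norm_num⟩
  | sm k hk =>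
    exact ⟨of_mem_XB (-(2, 2)) 0 (by decide) (by decide), by norm_num, by norm_num⟩
  | enter k => exact ⟨one_mem_XB, le_rfl, by norm_num⟩
  | rp b e R k hk =>
    refine ⟨of_mem_XB (rayv e) 0 ?_ ?_, ?_, ?_⟩ <;>
      rcases Int.units_eq_one_or e with rfl | rfl <;> decide
  | rm b e R k hk =>
    refine ⟨of_mem_XB (-rayv e) 0 ?_ ?_, ?_, ?_⟩ <;>
      rcases Int.units_eq_one_or e with rfl | rfl <;> decide
  | cross b e R k r a e' hc =>
    obtain ⟨h1, h2, -⟩ := hc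
    have h3 := sm_coord e r h1 h2
    refine ⟨of_te_mem_XB r a e' h3.1 h3.2, ?_, ?_⟩
    · unfold crossc
      omega
    · unfold crossc
      have h4 : (del e r).natAbs ≤ 1 := by
        have := abs_le.1 h2
        omega
      have h5 : chi e * |sig e r| ≤ 12 := by
        rw [← chi_mul_DD e]
        exact mul_le_mul_of_nonneg_left h1 (chi_pos e).le
      split_ifs <;> omega
  | last b e R k r a h1 h2 =>
    have h3 := sm_coord e r h1 h2
    exact ⟨of_mem_XB r a h3.1 h3.2, le_rfl, by norm_num⟩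

/-- `XB` generates: `HNNExtension.induction_on`; `of ⟨v, a⟩ = of (vec v) * of ⟨0, a⟩`, `v = v.1 • (1,0) + v.2 • (0,1)` -/
theorem XB_closure : Subgroup.closure (XB : Set GG) = ⊤ := by
  have hsub : ∀ x ∈ XB, x ∈ Subgroup.closure (XB : Set GG) := fun x hx =>
    Subgroup.subset_closure (Finset.mem_coe.2 hx)
  have hpow : ∀ w : ℤ × ℤ, |w.1| ≤ 4 → |w.2| ≤ 4 → ∀ j : ℤ,
      of (vec (j • w)) ∈ Subgroup.closure (XB : Set GG) := by
    intro w h1 h2 j
    have hw : of (vec w) ∈ Subgroup.closure (XB : Set GG) := hsub _ (of_mem_XB w 0 h1 h2)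
    induction j using Int.induction_on with
    | zero => rw [zero_smul, vec_zero, map_one]; exact one_mem _
    | succ i ih =>
      rw [add_smul, one_smul, ← vec_mul, map_mul]
      exact mul_mem ih hw
    | pred i ih =>
      rw [sub_smul, one_smul, sub_eq_add_neg, ← vec_mul, ← vec_inv, map_mul, map_inv]
      exact mul_mem ih (inv_mem hw)
  have hof : ∀ k : KK, of k ∈ Subgroup.closure (XB : Set GG) := by
    rintro ⟨v, a⟩
    have e : (⟨v, a⟩ : KK) = vec (v.1 • (1, 0)) * vec (v.2 • (0, 1)) * ⟨0, a⟩ := by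
      rw [vec_mul]
      ext1
      · rw [KK.mul_v, vec_v, vec_a]
        simp [rot_zero]
      · simp
    rw [e, map_mul, map_mul]
    refine mul_mem (mul_mem (hpow _ (by norm_num) (by norm_num) _)
      (hpow _ (by norm_num) (by norm_num) _)) (hsub _ (of_mem_XB 0 a (by norm_num) (by norm_num)))
  have ht : (HNNExtension.t : GG) ∈ Subgroup.closure (XB : Set GG) := by
    have h := hsub _ (of_te_mem_XB 0 0 1 (by norm_num) (by norm_num))
    have e : (⟨0, 0⟩ : KK) = 1 := rfl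
    rw [e, map_one, one_mul, te, Units.val_one, zpow_one] at h
    exact h
  rw [eq_top_iff]
  rintro x -
  induction x using HNNExtension.induction_on with
  | of g => exact hof g
  | t => exact ht
  | mul x y hx hy => exact mul_mem hx hy
  | inv x hx => exact inv_mem hx

end AutGeo
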