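import Pool.Agent.AutGeo.B.BDefs

set_option autoImplicit false

namespace AutGeo

/-- clamp of `k` to `[-K, K]` -/
def clampZ (K k : ℤ) : ℤ := max (-K) (min K k)

/-- equal windows of size 8 -/
def WinEq (R R' : ℤ → ℤ) : Prop := ∀ j : ℤ, |j| ≤ 8 → R j - R 0 = R' j - R' 0

/-- the equivalence of nodes -/
def NEq : Node → Node → Prop
  | .start k, .start k' => clampZ 20 k = clampZ 20 k'
  | .ray b e R k, .ray b' e' R' k' => b = b' ∧ e = e' ∧ WinEq R.1 R'.1 ∧ clampZ 60 k = clampZ 60 k'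
  | .fin, .fin => True
  | _, _ => False

end AutGeo
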