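import Pool.Agent.AutGeo.B.WinDefs

set_option autoImplicit false

namespace AutGeo

/-- `Ev` relative to `R 0` depends only on the window (not parallel), `|s| ≤ 7 DD`: `s / DD ∈ [-7, 7]` -/
theorem Ev_win (e : ℤˣ) (P : Prop) [Decidable P] (hP : ¬ P) (R R' : ℤ → ℤ) (h : WinEq R R') (s : ℤ) (hs : |s| ≤ 7 * DD e) :
    Ev e P R s - R 0 = Ev e P R' s - R' 0 := by
  unfold Ev
  rw [if_neg hP, if_neg hP, ← min_sub_sub_right, ← min_sub_sub_right]
  have hD := DD_pos e
  obtain ⟨hs1, hs2⟩ := abs_le.1 hs
  have hq1 : -7 ≤ s / DD e := by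
    rw [Int.le_ediv_iff_mul_le hD]; linarith
  have hq2 : s / DD e ≤ 7 := by
    have : s / DD e < 8 := by
      rw [Int.ediv_lt_iff_lt_mul hD]; linarith
    omega
  have h1 := h (s / DD e) (abs_le.2 ⟨by omega, by omega⟩)
  have h2 := h (s / DD e + 1) (abs_le.2 ⟨by omega, by omega⟩)
  congr 1
  · linarith
  · linarith

/-- the window of `nextR` depends only on the window of `R` and on `v` up to long translations along the ray.
Not parallel: `|sig v + j sig A| ≤ DD + 8 * (3/4) DD = 7 DD`, `Ev_win`; parallel: `(sig v ± j DD) / DD = ± j` since `0 ≤ sig v < DD`.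
`|del v + j del A| - |del v| = |del v' + j del A| - |del v'|`: `|j del A| ≤ 32`; either `v = v'` or `del v`, `del v'` have the same sign and absolute value at least 59 (parallel: `del A = 0`). -/
theorem nextR_win (e : ℤˣ) (R R' : ℤ → ℤ) (h : WinEq R R') (v v' : ℤ × ℤ) (a : ZMod 4) (e' : ℤˣ)
    (hs : sig e v = sig e v') (hD : |sig e v| ≤ DD e) (hpar : IsPar e a e' → 0 ≤ sig e v ∧ sig e v < DD e)
    (hd : del e v = del e v' ∨ (59 ≤ del e v ∧ 59 ≤ del e v') ∨ (del e v ≤ -59 ∧ del e v' ≤ -59)) :
    WinEq (nextR e R v a e') (nextR e R' v' a e') := by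
  intro j hj
  have hDp := DD_pos e
  unfold nextR
  simp only [sig_add, sig_smul, del_add, del_smul, zero_mul, add_zero]
  rw [← hs]
  rcases exit_dir e a e' with ⟨hp, hdir⟩ | ⟨hp, -, hA, hB⟩
  · obtain ⟨h0, h1⟩ := hpar hp
    have hE : ∀ (Q : ℤ → ℤ) s, Ev e (IsPar e a e') Q s = Q (s / DD e) := fun Q s => by
      unfold Ev; rw [if_pos hp]
    have hz : sig e v / DD e = 0 := Int.ediv_eq_zero_of_lt h0 h1
    have hnegs : ∀ v, sig e (-v) = - sig e v := fun v => by
      have := sig_smul e (-1) v; simpa using this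
    have hnegd : ∀ v, del e (-v) = - del e v := fun v => by
      have := del_smul e (-1) v; simpa using this
    rw [hE, hE, hE, hE]
    rcases hdir with ⟨-, hr⟩ | ⟨-, hr⟩
    · rw [hr, sig_T', del_T', Int.add_mul_ediv_right _ _ hDp.ne', hz]
      have := h j hj
      simp only [zero_add, mul_zero, add_zero]
      linarith
    · rw [hr, hnegs, hnegd, sig_T', del_T',
        show sig e v + j * -DD e = sig e v + (-j) * DD e by ring,
        Int.add_mul_ediv_right _ _ hDp.ne', hz]
      have := h (-j) (by rwa [abs_neg])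
      simp only [zero_add, mul_zero, add_zero, neg_zero]
      linarith
  · set sA := sig e (rot a (T e')) with hsA
    set dA := del e (rot a (T e')) with hdA
    obtain ⟨j1, j2⟩ := abs_le.1 hj
    have hj' : |j * sA| ≤ 6 * DD e := by
      rw [abs_mul]
      have h4 : |j| * (4 * |sA|) ≤ 8 * (3 * DD e) :=
        mul_le_mul hj hA (by positivity) (by norm_num)
      linarith
    have hjd : |j * dA| ≤ 32 := by
      rw [abs_mul]
      have h4 : |j| * |dA| ≤ 8 * 4 := mul_le_mul hj hB (abs_nonneg _) (by norm_num)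
      linarith
    have e1 := Ev_win e (IsPar e a e') hp R R' h (sig e v + j * sA)
      ((abs_add_le _ _).trans (by linarith))
    have e2 := Ev_win e (IsPar e a e') hp R R' h (sig e v) (by linarith)
    have e3 : |del e v + j * dA| - |del e v| = |del e v' + j * dA| - |del e v'| := by
      obtain ⟨k1, k2⟩ := abs_le.1 hjd
      rcases hd with hd | ⟨hd1, hd2⟩ | ⟨hd1, hd2⟩
      · rw [hd]
      · rw [abs_of_nonneg (show 0 ≤ del e v + j * dA by linarith),
          abs_of_nonneg (show 0 ≤ del e v by linarith),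
          abs_of_nonneg (show 0 ≤ del e v' + j * dA by linarith),
          abs_of_nonneg (show 0 ≤ del e v' by linarith)]
        ring
      · rw [abs_of_nonpos (show del e v + j * dA ≤ 0 by linarith),
          abs_of_nonpos (show del e v ≤ 0 by linarith),
          abs_of_nonpos (show del e v' + j * dA ≤ 0 by linarith),
          abs_of_nonpos (show del e v' ≤ 0 by linarith)]
        ring
    linarith

end AutGeo
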