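import Pool.Agent.AutGeo.B.WinDefs

set_option autoImplicit false

namespace AutGeo

private lemma clampZ_mem (K k : ℤ) (hK : 0 ≤ K) : clampZ K k ∈ Finset.Icc (-K) K := by
  rw [Finset.mem_Icc]
  unfold clampZ
  omega

private lemma win_mem (R : RF) (j : Finset.Icc (-8 : ℤ) 8) :
    R.1 j.1 - R.1 0 ∈ Finset.Icc (-96 : ℤ) 96 := by
  have hj := Finset.mem_Icc.1 j.2
  have h := R.2 j.1 0
  have h2 : |j.1 - 0| ≤ 8 := by rw [sub_zero]; exact abs_le.2 hj
  rw [Finset.mem_Icc]
  exact abs_le.1 (h.trans (by linarith))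

/-- codes of nodes -/
private abbrev NCode : Type :=
  (Finset.Icc (-20 : ℤ) 20) ⊕ (Bool × ℤˣ × ((Finset.Icc (-8 : ℤ) 8) → (Finset.Icc (-96 : ℤ) 96)) ×
    (Finset.Icc (-60 : ℤ) 60)) ⊕ Unit

/-- code of a node -/
private def ncode : Node → NCode
  | .start k => Sum.inl ⟨clampZ 20 k, clampZ_mem 20 k (by norm_num)⟩
  | .ray b e R k => Sum.inr (Sum.inl (b, e, fun j => ⟨R.1 j.1 - R.1 0, win_mem R j⟩,
      ⟨clampZ 60 k, clampZ_mem 60 k (by norm_num)⟩))
  | .fin => Sum.inr (Sum.inr ())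

/-- finitely many classes: code a node by (kind, `b`, `e`, the window as a function `Fin 17 → Fin 193` (`R j - R 0 + 96 ∈ [0,192]` by `Lip`), the clamp as an element of `Fin 121`) -/
theorem neq_finite : ∃ (Q : Type) (_ : Fintype Q) (π : Node → Q), ∀ n n', π n = π n' ↔ NEq n n' := by
  refine ⟨NCode, inferInstance, ncode, ?_⟩
  intro n n'
  rcases n with k | ⟨b, e, R, k⟩ | _ <;> rcases n' with k' | ⟨b', e', R', k'⟩ | _
  · simp [ncode, NEq]
  · simp [ncode, NEq]
  · simp [ncode, NEq]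
  · simp [ncode, NEq]
  · simp only [ncode, NEq, Sum.inr.injEq, Sum.inl.injEq, Prod.mk.injEq, Subtype.mk.injEq]
    refine and_congr_right fun _ => and_congr_right fun _ => and_congr_left fun _ => ?_
    constructor
    · intro h j hj
      have h2 := congrFun h ⟨j, Finset.mem_Icc.2 (abs_le.1 hj)⟩
      exact congrArg Subtype.val h2
    · intro h
      funext j
      exact Subtype.ext (h j.1 (abs_le.2 (Finset.mem_Icc.1 j.2)))
  · simp [ncode, NEq]
  · simp [ncode, NEq]
  · simp [ncode, NEq]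
  · simp [ncode, NEq]

end AutGeo
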