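import Pool.Agent.AutGeo.B.WinEv

set_option autoImplicit false

namespace AutGeo

private lemma clampZ_cases {K k k' : ℤ} (h : clampZ K k = clampZ K k') (hK : 0 < K := by norm_num) :
    k = k' ∨ (K ≤ k ∧ K ≤ k') ∨ (k ≤ -K ∧ k' ≤ -K) := by
  unfold clampZ at h
  omega

private lemma winEq_symm {R R' : ℤ → ℤ} (h : WinEq R R') : WinEq R' R := fun j hj => (h j hj).symm

private lemma rayc_pos (e : ℤˣ) : (1 : ℤ) ≤ rayc e := by
  rcases Int.units_eq_one_or e with rfl | rfl <;> decide

private lemma sig_kr (e : ℤˣ) (k : ℤ) (r : ℤ × ℤ) : sig e (k • rayv e + r) = sig e r := by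
  rw [sig_add, sig_smul, sig_rayv, mul_zero, zero_add]

private lemma del_kr (e : ℤˣ) (k : ℤ) (r : ℤ × ℤ) : del e (k • rayv e + r) = k * rayc e + del e r := by
  rw [del_add, del_smul, del_rayv]

private lemma abs_far {k k' c d : ℤ} (hc : 1 ≤ c) (hd : |d| ≤ 1)
    (h : |k * c + d| = |k| * c + |d|) (hk : (60 ≤ k ∧ 60 ≤ k') ∨ (k ≤ -60 ∧ k' ≤ -60)) :
    |k' * c + d| = |k'| * c + |d| := by
  have hd1 := abs_le.1 hd
  rcases hk with ⟨h1, h2⟩ | ⟨h1, h2⟩
  · have e1 : 0 ≤ k * c + d := by nlinarith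
    have e2 : 0 ≤ k' * c + d := by nlinarith
    rw [abs_of_nonneg e1, abs_of_nonneg (show 0 ≤ k by omega)] at h
    rw [abs_of_nonneg e2, abs_of_nonneg (show 0 ≤ k' by omega)]
    linarith
  · have e1 : k * c + d ≤ 0 := by nlinarith
    have e2 : k' * c + d ≤ 0 := by nlinarith
    rw [abs_of_nonpos e1, abs_of_nonpos (show k ≤ 0 by omega)] at h
    rw [abs_of_nonpos e2, abs_of_nonpos (show k' ≤ 0 by omega)]
    linarith

/-- `CrossOK` depends only on the window and the clamp of `k` -/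
theorem crossOK_win {b : Bool} {e : ℤˣ} {R R' : RF} {k k' : ℤ} {r : ℤ × ℤ} {a : ZMod 4} {e' : ℤˣ}
    (h : CrossOK b e R k r a e') (hw : WinEq R.1 R'.1) (hk : clampZ 60 k = clampZ 60 k') : CrossOK b e R' k' r a e' := by
  obtain ⟨h1, h2, h3, h4, h5, h6⟩ := h
  have hc := rayc_pos e
  refine ⟨h1, h2, ?_, h4, ?_, ?_⟩
  · rw [del_kr] at h3 ⊢
    rcases clampZ_cases hk with rfl | hk'
    · exact h3
    · exact abs_far hc h2 h3 hk'
  · intro hp
    have h7 := Ev_win e (IsPar e a e') hp R.1 R'.1 hw (sig e r)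
      (le_trans h1 (by have := DD_pos e; linarith))
    rw [h5 hp] at h7
    linarith
  · rintro ⟨hb, h0, ha, he⟩
    rcases clampZ_cases hk with rfl | hk'
    · exact h6 ⟨hb, h0, ha, he⟩
    · have h8 := congrArg (del e) h0
      rw [del_kr] at h8
      have h9 : del e (0 : ℤ × ℤ) = 0 := by
        rcases Int.units_eq_one_or e with rfl | rfl <;> decide
      rw [h9] at h8
      have hd := abs_le.1 h2
      rcases hk' with ⟨-, h10⟩ | ⟨-, h10⟩ <;> nlinarith

/-- bisimulation: equivalent nodes have equivalent steps -/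
theorem neq_step (n n' : Node) (s : GG) (c : ℕ) (m : Node) (h : NEq n n') (hs : Step n s c m) :
    ∃ m', Step n' s c m' ∧ NEq m' m := by
  cases hs with
  | sp k hk =>
    rcases n' with k' | ⟨b', e', R', k'⟩ | _
    · change clampZ 20 k = clampZ 20 k' at h
      refine ⟨.start (k' + 1), .sp k' ?_, ?_⟩
      · rcases clampZ_cases h with h | h | h <;> omega
      · change clampZ 20 (k' + 1) = clampZ 20 (k + 1)
        unfold clampZ at h ⊢
        omega
    · exact h.elim
    · exact h.elim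
  | sm k hk =>
    rcases n' with k' | ⟨b', e', R', k'⟩ | _
    · change clampZ 20 k = clampZ 20 k' at h
      refine ⟨.start (k' - 1), .sm k' ?_, ?_⟩
      · rcases clampZ_cases h with h | h | h <;> omega
      · change clampZ 20 (k' - 1) = clampZ 20 (k - 1)
        unfold clampZ at h ⊢
        omega
    · exact h.elim
    · exact h.elim
  | enter k =>
    rcases n' with k' | ⟨b', e', R', k'⟩ | _
    · change clampZ 20 k = clampZ 20 k' at h
      refine ⟨.ray true 1 (R0 k') 0, .enter k', rfl, rfl, ?_, rfl⟩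
      intro j hj
      change 12 * |k' + j| - 12 * |k' + 0| = 12 * |k + j| - 12 * |k + 0|
      have hj' := abs_le.1 hj
      rcases clampZ_cases h with rfl | ⟨h1, h2⟩ | ⟨h1, h2⟩
      · rfl
      · rw [abs_of_nonneg (show 0 ≤ k' + j by omega), abs_of_nonneg (show 0 ≤ k' + 0 by omega),
          abs_of_nonneg (show 0 ≤ k + j by omega), abs_of_nonneg (show 0 ≤ k + 0 by omega)]
        ring
      · rw [abs_of_nonpos (show k' + j ≤ 0 by omega), abs_of_nonpos (show k' + 0 ≤ 0 by omega),
          abs_of_nonpos (show k + j ≤ 0 by omega), abs_of_nonpos (show k + 0 ≤ 0 by omega)]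
        ring
    · exact h.elim
    · exact h.elim
  | rp b e R k hk =>
    rcases n' with k' | ⟨b', e', R', k'⟩ | _
    · exact h.elim
    · obtain ⟨rfl, rfl, hw, hc⟩ := h
      refine ⟨.ray b e R' (k' + 1), .rp b e R' k' ?_, rfl, rfl, winEq_symm hw, ?_⟩
      · rcases clampZ_cases hc with h | h | h <;> omega
      · unfold clampZ at hc ⊢
        omega
    · exact h.elim
  | rm b e R k hk =>
    rcases n' with k' | ⟨b', e', R', k'⟩ | _
    · exact h.elim
    · obtain ⟨rfl, rfl, hw, hc⟩ := h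
      refine ⟨.ray b e R' (k' - 1), .rm b e R' k' ?_, rfl, rfl, winEq_symm hw, ?_⟩
      · rcases clampZ_cases hc with h | h | h <;> omega
      · unfold clampZ at hc ⊢
        omega
    · exact h.elim
  | cross b e R k r a e2 hok =>
    rcases n' with k' | ⟨b', e', R', k'⟩ | _
    · exact h.elim
    · obtain ⟨rfl, rfl, hw, hc⟩ := h
      refine ⟨.ray false e2 (nextRF e R' (k' • rayv e + r) a e2) 0,
        .cross b e R' k' r a e2 (crossOK_win hok hw hc), rfl, rfl, ?_, rfl⟩
      obtain ⟨h1, h2, h3, h4, h5, h6⟩ := hok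
      change WinEq (nextR e R'.1 (k' • rayv e + r) a e2) (nextR e R.1 (k • rayv e + r) a e2)
      refine nextR_win e R'.1 R.1 (winEq_symm hw) _ _ a e2 ?_ ?_ ?_ ?_
      · rw [sig_kr, sig_kr]
      · rw [sig_kr]; exact h1
      · rw [sig_kr]; exact h4
      · rw [del_kr, del_kr]
        have hcc := rayc_pos e
        have hd := abs_le.1 h2
        rcases clampZ_cases hc with rfl | ⟨h7, h8⟩ | ⟨h7, h8⟩
        · exact Or.inl rfl
        · refine Or.inr (Or.inl ⟨?_, ?_⟩) <;> nlinarith
        · refine Or.inr (Or.inr ⟨?_, ?_⟩) <;> nlinarith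
    · exact h.elim
  | last b e R k r a h1 h2 =>
    rcases n' with k' | ⟨b', e', R', k'⟩ | _
    · exact h.elim
    · exact ⟨.fin, .last b' e' R' k' r a (by obtain ⟨rfl, rfl, -, -⟩ := h; exact h1)
        (by obtain ⟨rfl, rfl, -, -⟩ := h; exact h2), trivial⟩
    · exact h.elim

end AutGeo
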