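import Pool.Agent.AutGeo.B.WinStep
import Pool.Agent.AutGeo.B.WinFin

set_option autoImplicit false

namespace AutGeo

/-- B1: finite bisimulation quotient. -/
theorem window_bisim : ∃ (Q : Type) (_ : Fintype Q) (π : Node → Q),
    (∀ n n' s c m, π n = π n' → Step n s c m → ∃ m', Step n' s c m' ∧ π m' = π m) ∧
    (∀ n n', π n = π n' → (n = Node.fin ↔ n' = Node.fin)) := by
  obtain ⟨Q, hQ, π, h⟩ := neq_finite
  refine ⟨Q, hQ, π, ?_, ?_⟩
  · intro n n' s c m hn hs
    obtain ⟨m', h1, h2⟩ := neq_step n n' s c m ((h n n').1 hn) hs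
    exact ⟨m', h1, (h m' m).2 h2⟩
  · intro n n' hn
    have := (h n n').1 hn
    cases n <;> cases n' <;> simp_all [NEq]

end AutGeo
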